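import Pool.Agent.Helper41.Jef.Trans

/-! # Ball averages in the space variable -/

open MeasureTheory Set Filter Topology
open scoped ENNReal NNReal ContDiff

namespace Pool.Agent.Helper41.Jef

open Pool.Agent.Helper42.Jef

variable {n : ℕ}

/-- unnormalised ball average -/
noncomputable def av (δ : ℝ) (w : ST n → Eu n) (z : ST n) : Eu n :=
  ∫ y in Metric.ball (0 : Eu n) δ, w (sh y z)

theorem sh_prod_measurable : Measurable fun p : ST n × Eu n => sh p.2 p.1 :=
  (measurable_fst.comp measurable_fst).prodMk ((measurable_snd.comp measurable_fst).add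
    measurable_snd)

theorem av_sm (δ : ℝ) {w : ST n → Eu n} (hw : StronglyMeasurable w) :
    StronglyMeasurable (av δ w) :=
  (hw.comp_measurable sh_prod_measurable).integral_prod_right'

theorem section_shift {w : ST n → Eu n} {t : ℝ} (ht : MemLp (fun x => w (t, x)) 2 volume)
    (x : Eu n) : MemLp (fun y => w (t, x + y)) 2 volume :=
  ht.comp_measurePreserving (measurePreserving_add_left volume x)

theorem section_integrable {w : ST n → Eu n} {t : ℝ} (ht : MemLp (fun x => w (t, x)) 2 volume)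
    (x : Eu n) (δ : ℝ) : Integrable (fun y => w (t, x + y))
      (volume.restrict (Metric.ball (0 : Eu n) δ)) := by
  have : IsFiniteMeasure (volume.restrict (Metric.ball (0 : Eu n) δ)) :=
    ⟨by rw [Measure.restrict_apply_univ]; exact measure_ball_lt_top⟩
  exact ((section_shift ht x).restrict _).integrable (by norm_num)

theorem av_diff {w : ST n → Eu n} (hw : StronglyMeasurable w) (hw2 : MemLp w 2 volume)
    {δ : ℝ} {K : ℝ≥0∞}
    (hK : ∀ y : Eu n, eLpNorm (fun z => w (sh y z) - w z) 2 volume ≤ ‖y‖ₑ * K) :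
    eLpNorm (fun z => (volume (Metric.ball (0 : Eu n) δ)).toReal • w z - av δ w z) 2 volume ≤
      volume (Metric.ball (0 : Eu n) δ) * (ENNReal.ofReal δ * K) := by
  set c := volume (Metric.ball (0 : Eu n) δ) with hc
  have hct : c ≠ ⊤ := measure_ball_lt_top.ne
  refine eLpNorm_le_of_sq ?_
  have h1 : ∀ᵐ z : ST n, ‖c.toReal • w z - av δ w z‖ₑ ^ 2 ≤
      c * ∫⁻ y in Metric.ball (0 : Eu n) δ, ‖w (sh y z) - w z‖ₑ ^ 2 := by
    have h2 : ∀ᵐ z : ST n, MemLp (fun x => w (z.1, x)) 2 volume := by
      rw [Measure.volume_eq_prod]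
      exact Measure.quasiMeasurePreserving_fst.ae (ae_section hw hw2)
    filter_upwards [h2] with z hz
    have h3 : c.toReal • w z - av δ w z =
        ∫ y in Metric.ball (0 : Eu n) δ, (w z - w (sh y z)) := by
      have : IsFiniteMeasure (volume.restrict (Metric.ball (0 : Eu n) δ)) :=
        ⟨by rw [Measure.restrict_apply_univ]; exact measure_ball_lt_top⟩
      have h5 : Integrable (fun y => w (sh y z))
          (volume.restrict (Metric.ball (0 : Eu n) δ)) := section_integrable hz z.2 δ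
      rw [integral_sub (integrable_const _) h5, setIntegral_const]
      rfl
    have h4 : AEStronglyMeasurable (fun y => w z - w (sh y z))
        (volume.restrict (Metric.ball (0 : Eu n) δ)) := by
      refine StronglyMeasurable.aestronglyMeasurable ?_
      refine stronglyMeasurable_const.sub (hw.comp_measurable ?_)
      exact (measurable_const.prodMk (measurable_const.add measurable_id))
    rw [h3]
    refine (enorm_integral_sq_le h4).trans (le_of_eq ?_)
    rw [Measure.restrict_apply_univ]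
    congr 1
    refine lintegral_congr fun y => ?_
    rw [← enorm_neg, neg_sub]
  have hm : StronglyMeasurable fun p : ST n × Eu n => w (sh p.2 p.1) - w p.1 :=
    (hw.comp_measurable sh_prod_measurable).sub (hw.comp_measurable measurable_fst)
  calc ∫⁻ z, ‖c.toReal • w z - av δ w z‖ₑ ^ 2
      ≤ ∫⁻ z, c * ∫⁻ y in Metric.ball (0 : Eu n) δ, ‖w (sh y z) - w z‖ₑ ^ 2 :=
        lintegral_mono_ae h1
    _ = c * ∫⁻ z, ∫⁻ y in Metric.ball (0 : Eu n) δ, ‖w (sh y z) - w z‖ₑ ^ 2 := by
        rw [lintegral_const_mul]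
        exact (hm.enorm.pow_const 2).lintegral_prod_right'
    _ = c * ∫⁻ y in Metric.ball (0 : Eu n) δ, ∫⁻ z, ‖w (sh y z) - w z‖ₑ ^ 2 := by
        rw [lintegral_lintegral_swap]
        exact (hm.enorm.pow_const 2).aemeasurable
    _ ≤ c * ∫⁻ y in Metric.ball (0 : Eu n) δ, (ENNReal.ofReal δ * K) ^ 2 := by
        refine mul_le_mul' le_rfl (setLIntegral_mono measurable_const fun y hy => ?_)
        rw [← eLpNorm_two_sq]
        refine pow_le_pow_left₀ zero_le ((hK y).trans (mul_le_mul' ?_ le_rfl)) 2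
        rw [← ofReal_norm]
        exact ENNReal.ofReal_le_ofReal (mem_ball_zero_iff.1 hy).le
    _ = (c * (ENNReal.ofReal δ * K)) ^ 2 := by
        rw [setLIntegral_const, ← hc]; ring

theorem enorm_sq_eq (v : Eu n) : ‖v‖ₑ ^ 2 = ∑ j, ‖v j‖ₑ ^ 2 := by
  rw [← ofReal_norm, ← ENNReal.ofReal_pow (norm_nonneg _), EuclideanSpace.real_norm_sq_eq,
    ENNReal.ofReal_sum_of_nonneg fun i _ => sq_nonneg _]
  refine Finset.sum_congr rfl fun j _ => ?_
  rw [← sq_abs, ENNReal.ofReal_pow (abs_nonneg _), ← Real.norm_eq_abs, ofReal_norm]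

/-- the test field extracting a component of the ball average -/
noncomputable def zt (δ : ℝ) (x : Eu n) (j : Fin n) : Eu n → Eu n :=
  (Metric.ball x δ).indicator fun _ => bv j

theorem zt_memLp (δ : ℝ) (x : Eu n) (j : Fin n) : MemLp (zt δ x j) 2 volume :=
  memLp_indicator_const 2 Metric.isOpen_ball.measurableSet _ (Or.inr measure_ball_lt_top.ne)

theorem av_comp {w : ST n → Eu n} {t : ℝ} (ht : MemLp (fun x => w (t, x)) 2 volume)
    (δ : ℝ) (x : Eu n) (j : Fin n) : (av δ w (t, x)) j = pr w (zt δ x j) t := by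
  have h1 : (av δ w (t, x)) j = inner ℝ (bv j) (av δ w (t, x)) := by
    rw [bv, EuclideanSpace.inner_single_left]; simp
  have h0 : av δ w (t, x) = ∫ y in Metric.ball (0 : Eu n) δ, w (t, x + y) := rfl
  rw [h1, h0]
  rw [← integral_inner (section_integrable ht x δ) (bv j),
    ← integral_indicator Metric.isOpen_ball.measurableSet]
  have h2 : ∀ y, (Metric.ball (0 : Eu n) δ).indicator
      (fun y => inner ℝ (bv j) (w (t, x + y))) y =
      (fun y' => inner ℝ (w (t, y')) (zt δ x j y')) (x + y) := by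
    intro y
    by_cases hy : y ∈ Metric.ball (0 : Eu n) δ
    · have hy' : x + y ∈ Metric.ball x δ := by
        rw [mem_ball_iff_norm, add_sub_cancel_left]
        exact mem_ball_zero_iff.1 hy
      simp only [zt, indicator_of_mem hy, indicator_of_mem hy']
      exact real_inner_comm _ _
    · have hy' : x + y ∉ Metric.ball x δ := by
        intro h
        rw [mem_ball_iff_norm, add_sub_cancel_left] at h
        exact hy (mem_ball_zero_iff.2 h)
      simp only [zt, indicator_of_notMem hy, indicator_of_notMem hy', inner_zero_right]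
  rw [integral_congr_ae (Eventually.of_forall h2)]
  exact integral_add_left_eq_self (fun y' => inner ℝ (w (t, y')) (zt δ x j y')) x

theorem av_section {w : ST n → Eu n} (hw : StronglyMeasurable w) (hw2 : MemLp w 2 volume)
    (δ : ℝ) (x : Eu n) :
    ∫⁻ t, ‖av δ w (t, x)‖ₑ ^ 2 = ∑ j, eLpNorm (pr w (zt δ x j)) 2 volume ^ 2 := by
  have h1 : ∫⁻ t, ‖av δ w (t, x)‖ₑ ^ 2 = ∫⁻ t, ∑ j, ‖pr w (zt δ x j) t‖ₑ ^ 2 := by
    refine lintegral_congr_ae ?_
    filter_upwards [ae_section hw hw2] with t ht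
    rw [enorm_sq_eq]
    exact Finset.sum_congr rfl fun j _ => by rw [av_comp ht]
  rw [h1, lintegral_finsetSum']
  · simp only [eLpNorm_two_sq]
  · intro j _
    exact (pr_aesm hw (zt_memLp δ x j).1).enorm.pow_const 2

theorem av_bound {w : ST n → Eu n} (hw : StronglyMeasurable w) (δ : ℝ) (x : Eu n) :
    ∫⁻ t, ‖av δ w (t, x)‖ₑ ^ 2 ≤
      volume (Metric.ball (0 : Eu n) δ) * eLpNorm w 2 volume ^ 2 := by
  rw [eLpNorm_two_sq, lintegral_st hw, ← lintegral_const_mul]
  · refine lintegral_mono fun t => ?_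
    have h4 : AEStronglyMeasurable (fun y => w (t, x + y))
        (volume.restrict (Metric.ball (0 : Eu n) δ)) := by
      refine StronglyMeasurable.aestronglyMeasurable (hw.comp_measurable ?_)
      exact (measurable_const.prodMk (measurable_const.add measurable_id))
    refine (enorm_integral_sq_le h4).trans ?_
    rw [Measure.restrict_apply_univ]
    refine mul_le_mul' le_rfl ((lintegral_mono' Measure.restrict_le_self le_rfl).trans ?_)
    exact le_of_eq (lintegral_add_left_eq_self (fun y => ‖w (t, y)‖ₑ ^ 2) x)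
  · exact (hw.enorm.pow_const 2).lintegral_prod_right'

theorem av_outside {w : ST n → Eu n} {R δ : ℝ} (h0 : ∀ z : ST n, R ≤ ‖z.2‖ → w z = 0)
    {x : Eu n} (hx : R + δ ≤ ‖x‖) (t : ℝ) : av δ w (t, x) = 0 := by
  unfold av
  rw [setIntegral_congr_fun Metric.isOpen_ball.measurableSet (g := fun _ => (0 : Eu n))]
  · simp
  · intro y hy
    refine h0 _ ?_
    have h1 : ‖y‖ < δ := mem_ball_zero_iff.1 hy
    have h2 : ‖x‖ ≤ ‖x + y‖ + ‖y‖ := by
      have := norm_sub_le (x + y) y
      rwa [add_sub_cancel_right] at this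
    show R ≤ ‖x + y‖
    linarith

/-- ball averages converge strongly -/
theorem av_tendsto {w : ℕ → ST n → Eu n} (hw : ∀ m, StronglyMeasurable (w m))
    (hw2 : ∀ m, MemLp (w m) 2 volume) {K : ℝ≥0∞} (hKt : K ≠ ⊤)
    (hK : ∀ m, eLpNorm (w m) 2 volume ≤ K)
    {R : ℝ} (h0 : ∀ m, ∀ z : ST n, R ≤ ‖z.2‖ → w m z = 0)
    (hp : ∀ z : Eu n → Eu n, MemLp z 2 volume →
      Tendsto (fun m => eLpNorm (pr (w m) z) 2 volume) atTop (𝓝 0)) (δ : ℝ) :
    Tendsto (fun m => ∫⁻ z, ‖av δ (w m) z‖ₑ ^ 2) atTop (𝓝 0) := by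
  set c := volume (Metric.ball (0 : Eu n) δ) with hc
  have hct : c ≠ ⊤ := measure_ball_lt_top.ne
  have hsm : ∀ m, Measurable fun x : Eu n => ∫⁻ t, ‖av δ (w m) (t, x)‖ₑ ^ 2 := fun m =>
    ((av_sm δ (hw m)).enorm.pow_const 2).lintegral_prod_left'
  have h1 : ∀ m, ∫⁻ z, ‖av δ (w m) z‖ₑ ^ 2 = ∫⁻ x, ∫⁻ t, ‖av δ (w m) (t, x)‖ₑ ^ 2 := by
    intro m
    rw [Measure.volume_eq_prod, lintegral_prod_symm _
      ((av_sm δ (hw m)).enorm.pow_const 2).aemeasurable]
  simp only [h1]
  have h2 : Tendsto (fun m => ∫⁻ x, ∫⁻ t, ‖av δ (w m) (t, x)‖ₑ ^ 2) atTop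
      (𝓝 (∫⁻ _ : Eu n, (0 : ℝ≥0∞))) := by
    refine tendsto_lintegral_of_dominated_convergence
      ((Metric.ball (0 : Eu n) (R + δ)).indicator fun _ => c * K ^ 2) hsm ?_ ?_ ?_
    · intro m
      refine Eventually.of_forall fun x => ?_
      by_cases hx : x ∈ Metric.ball (0 : Eu n) (R + δ)
      · rw [indicator_of_mem hx]
        exact (av_bound (hw m) δ x).trans (mul_le_mul' le_rfl (pow_le_pow_left₀ zero_le (hK m) 2))
      · rw [indicator_of_notMem hx]
        have hx' : R + δ ≤ ‖x‖ := by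
          rw [mem_ball_zero_iff] at hx
          exact not_lt.1 hx
        simp only [av_outside (h0 m) hx']
        simp
    · rw [lintegral_indicator_const Metric.isOpen_ball.measurableSet]
      exact ENNReal.mul_ne_top (ENNReal.mul_ne_top hct (ENNReal.pow_ne_top hKt))
        measure_ball_lt_top.ne
    · refine Eventually.of_forall fun x => ?_
      simp only [av_section (hw _) (hw2 _)]
      have h3 : ∀ j : Fin n, Tendsto (fun m => eLpNorm (pr (w m) (zt δ x j)) 2 volume ^ 2) atTop
          (𝓝 0) := by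
        intro j
        have := ENNReal.Tendsto.pow (n := 2) (hp _ (zt_memLp δ x j))
        simpa using this
      have h4 := tendsto_finsetSum Finset.univ fun j _ => h3 j
      simpa using h4
  simpa using h2

end Pool.Agent.Helper41.Jef
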