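import Pool.Agent.Helper42.Jef.Defs

/-! # Basic `L²` inequalities used in the strong compactness of the velocities -/

open MeasureTheory Set Filter Topology
open scoped ENNReal NNReal ContDiff

namespace Pool.Agent.Helper41.Jef

section Gen

variable {α : Type*} [MeasurableSpace α] {μ : Measure α}

theorem lintegral_mul_sq_le {f g : α → ℝ≥0∞} (hf : AEMeasurable f μ) (hg : AEMeasurable g μ) :
    (∫⁻ a, f a * g a ∂μ) ^ 2 ≤ (∫⁻ a, f a ^ 2 ∂μ) * ∫⁻ a, g a ^ 2 ∂μ := by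
  have h := ENNReal.lintegral_mul_le_Lp_mul_Lq μ Real.HolderConjugate.two_two hf hg
  have h2 : (∫⁻ a, f a * g a ∂μ) ≤
      (∫⁻ a, f a ^ 2 ∂μ) ^ (1 / 2 : ℝ) * (∫⁻ a, g a ^ 2 ∂μ) ^ (1 / 2 : ℝ) := by
    simpa using h
  have h3 : ∀ x : ℝ≥0∞, (x ^ (1 / 2 : ℝ)) ^ 2 = x := by
    intro x
    rw [← ENNReal.rpow_natCast, ← ENNReal.rpow_mul]
    norm_num
  calc (∫⁻ a, f a * g a ∂μ) ^ 2
      ≤ ((∫⁻ a, f a ^ 2 ∂μ) ^ (1 / 2 : ℝ) * (∫⁻ a, g a ^ 2 ∂μ) ^ (1 / 2 : ℝ)) ^ 2 :=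
        pow_le_pow_left₀ zero_le h2 2
    _ = _ := by rw [mul_pow, h3, h3]

theorem eLpNorm_two_sq {E : Type*} [NormedAddCommGroup E] (f : α → E) :
    eLpNorm f 2 μ ^ 2 = ∫⁻ a, ‖f a‖ₑ ^ 2 ∂μ := by
  have h := eLpNorm_nnreal_eq_lintegral (μ := μ) (f := f) (p := 2) (by norm_num)
  have h2 : eLpNorm f 2 μ = (∫⁻ a, ‖f a‖ₑ ^ 2 ∂μ) ^ (1 / 2 : ℝ) := by
    simpa using h
  rw [h2, ← ENNReal.rpow_natCast, ← ENNReal.rpow_mul]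
  norm_num

theorem eLpNorm_le_of_sq {E : Type*} [NormedAddCommGroup E] {f : α → E} {C : ℝ≥0∞}
    (h : ∫⁻ a, ‖f a‖ₑ ^ 2 ∂μ ≤ C ^ 2) : eLpNorm f 2 μ ≤ C := by
  rw [← eLpNorm_two_sq] at h
  rw [← ENNReal.rpow_natCast, ← ENNReal.rpow_natCast] at h
  exact (ENNReal.rpow_le_rpow_iff (by norm_num)).1 h

/-- Cauchy–Schwarz on a set of finite measure -/
theorem enorm_integral_sq_le {E : Type*} [NormedAddCommGroup E] [NormedSpace ℝ E] {f : α → E}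
    (hf : AEStronglyMeasurable f μ) :
    ‖∫ a, f a ∂μ‖ₑ ^ 2 ≤ μ univ * ∫⁻ a, ‖f a‖ₑ ^ 2 ∂μ := by
  have h1 : ‖∫ a, f a ∂μ‖ₑ ≤ ∫⁻ a, 1 * ‖f a‖ₑ ∂μ := by
    simpa using enorm_integral_le_lintegral_enorm f
  calc ‖∫ a, f a ∂μ‖ₑ ^ 2 ≤ (∫⁻ a, 1 * ‖f a‖ₑ ∂μ) ^ 2 := pow_le_pow_left₀ zero_le h1 2
    _ ≤ (∫⁻ _, 1 ^ 2 ∂μ) * ∫⁻ a, ‖f a‖ₑ ^ 2 ∂μ :=
      lintegral_mul_sq_le aemeasurable_const hf.enorm
    _ = _ := by simp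

end Gen

end Pool.Agent.Helper41.Jef
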