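import Pool.Agent.Helper41.Jef.Elem

/-! # From test fields to all square integrable fields -/

open MeasureTheory Set Filter Topology
open scoped ENNReal NNReal ContDiff

namespace Pool.Agent.Helper41.Jef

open Pool.Agent.Helper42.Jef

variable {n : ℕ}

theorem pr_add_norm {w : ST n → Eu n} (hw : StronglyMeasurable w) (hw2 : MemLp w 2 volume)
    {z z' : Eu n → Eu n} (hz : MemLp z 2 volume) (hz' : MemLp z' 2 volume) :
    eLpNorm (pr w (fun x => z x + z' x)) 2 volume ≤
      eLpNorm (pr w z) 2 volume + eLpNorm (pr w z') 2 volume := by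
  have h1 : pr w (fun x => z x + z' x) =ᵐ[volume] pr w z + pr w z' := by
    filter_upwards [ae_section hw hw2] with t ht
    rw [pr_add_right hz hz' ht]; rfl
  rw [eLpNorm_congr_ae h1]
  exact eLpNorm_add_le (pr_aesm hw hz.1) (pr_aesm hw hz'.1) (by norm_num)

/-- the subspace of fields against which the pairing tends to zero in `L²` -/
noncomputable def goodSub (w : ℕ → ST n → Eu n) (hw : ∀ m, StronglyMeasurable (w m))
    (hw2 : ∀ m, MemLp (w m) 2 volume) : Submodule ℝ (Lp (Eu n) 2 (volume : Measure (Eu n))) where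
  carrier := {f | Tendsto (fun m => eLpNorm (pr (w m) f) 2 volume) atTop (𝓝 0)}
  add_mem' := by
    intro f g hf hg
    have h1 : ∀ m, eLpNorm (pr (w m) (f + g : Lp (Eu n) 2 (volume : Measure (Eu n)))) 2 volume ≤
        eLpNorm (pr (w m) f) 2 volume + eLpNorm (pr (w m) g) 2 volume := by
      intro m
      have h2 : pr (w m) (f + g : Lp (Eu n) 2 (volume : Measure (Eu n))) =
          pr (w m) (fun x => f x + g x) := by
        funext t
        exact pr_congr_right _ (Lp.coeFn_add f g) t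
      rw [h2]
      exact pr_add_norm (hw m) (hw2 m) (Lp.memLp f) (Lp.memLp g)
    have h3 : Tendsto (fun m => eLpNorm (pr (w m) f) 2 volume + eLpNorm (pr (w m) g) 2 volume)
        atTop (𝓝 0) := by
      have := Tendsto.add (show Tendsto _ _ _ from hf) (show Tendsto _ _ _ from hg)
      rwa [add_zero] at this
    exact tendsto_of_tendsto_of_tendsto_of_le_of_le tendsto_const_nhds h3 (fun _ => bot_le) h1
  zero_mem' := by
    have h1 : ∀ m, eLpNorm (pr (w m) (0 : Lp (Eu n) 2 (volume : Measure (Eu n)))) 2 volume = 0 := by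
      intro m
      have h2 : pr (w m) (0 : Lp (Eu n) 2 (volume : Measure (Eu n))) = 0 := by
        funext t
        rw [pr_congr_right _ (Lp.coeFn_zero (Eu n) 2 volume) t]
        simp [pr]
      rw [h2]; simp
    show Tendsto _ _ _
    simp only [h1]
    exact tendsto_const_nhds
  smul_mem' := by
    intro c f hf
    have h1 : ∀ m, eLpNorm (pr (w m) (c • f : Lp (Eu n) 2 (volume : Measure (Eu n)))) 2 volume =
        ‖c‖ₑ * eLpNorm (pr (w m) f) 2 volume := by
      intro m
      have h2 : pr (w m) (c • f : Lp (Eu n) 2 (volume : Measure (Eu n))) =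
          fun t => c • pr (w m) f t := by
        funext t
        rw [pr_congr_right _ (Lp.coeFn_smul c f) t]
        exact pr_smul_right _ _ _ _
      rw [h2]
      exact eLpNorm_const_smul c _ 2 volume
    show Tendsto _ _ _
    simp only [h1]
    have := ENNReal.Tendsto.const_mul (a := ‖c‖ₑ) (show Tendsto _ _ _ from hf)
      (Or.inr enorm_ne_top)
    rwa [mul_zero] at this

theorem goodSub_closed {w : ℕ → ST n → Eu n} (hw : ∀ m, StronglyMeasurable (w m))
    (hw2 : ∀ m, MemLp (w m) 2 volume) {K : ℝ≥0∞} (hKt : K ≠ ⊤)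
    (hK : ∀ m, eLpNorm (w m) 2 volume ≤ K) :
    IsClosed (goodSub w hw hw2 : Set (Lp (Eu n) 2 (volume : Measure (Eu n)))) := by
  refine isClosed_of_closure_subset fun f hf => ?_
  show Tendsto _ _ _
  rw [ENNReal.tendsto_nhds_zero]
  intro ε hε
  -- choose an approximation
  obtain ⟨δ, hδ, hδe⟩ : ∃ δ : ℝ, 0 < δ ∧ K * ENNReal.ofReal δ ≤ ε / 2 := by
    have h1 : Tendsto (fun k : ℕ => K * ENNReal.ofReal (1 / ((k : ℝ) + 1))) atTop (𝓝 (K * 0)) := by
      refine ENNReal.Tendsto.const_mul ?_ (Or.inr hKt)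
      have := ENNReal.tendsto_ofReal tendsto_one_div_add_atTop_nhds_zero_nat
      rwa [ENNReal.ofReal_zero] at this
    rw [mul_zero, ENNReal.tendsto_nhds_zero] at h1
    obtain ⟨k, hk⟩ := (h1 (ε / 2) (ENNReal.half_pos hε.ne')).exists
    exact ⟨_, by positivity, hk⟩
  obtain ⟨f', hf', hd⟩ := Metric.mem_closure_iff.1 hf δ hδ
  have hf'' : Tendsto (fun m => eLpNorm (pr (w m) f') 2 volume) atTop (𝓝 0) := hf'
  filter_upwards [ENNReal.tendsto_nhds_zero.1 hf'' (ε / 2) (ENNReal.half_pos hε.ne')] with m hm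
  have h1 : pr (w m) f = pr (w m) (fun x => (f - f' : Lp (Eu n) 2 (volume : Measure (Eu n))) x
      + f' x) := by
    funext t
    refine pr_congr_right _ ?_ t
    filter_upwards [Lp.coeFn_sub f f'] with x hx
    rw [hx, Pi.sub_apply, sub_add_cancel]
  rw [h1]
  refine (pr_add_norm (hw m) (hw2 m) (Lp.memLp _) (Lp.memLp f')).trans ?_
  rw [← ENNReal.add_halves ε]
  refine add_le_add ?_ hm
  refine (pr_le (hw m) (Lp.memLp _).1).trans ((mul_le_mul' (hK m) ?_).trans hδe)
  rw [← Lp.enorm_def, ← ofReal_norm, ← dist_eq_norm]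
  exact ENNReal.ofReal_le_ofReal hd.le

theorem inner_toLp' {g : Eu n → Eu n} (hg : MemLp g 2 volume)
    (f : Lp (Eu n) 2 (volume : Measure (Eu n))) :
    inner ℝ (hg.toLp g) f = ∫ x, inner ℝ (g x) (f x) := by
  rw [L2.inner_def]
  refine integral_congr_ae ?_
  filter_upwards [hg.coeFn_toLp] with x h2
  rw [h2]

/-- from test fields to all fields -/
theorem pr_tendsto {Ω : Set (Eu n)} {T : ℝ} {w : ℕ → ST n → Eu n} {W : ℕ → ST n → Mt n}
    (hV : ∀ m, IsVel Ω T (w m) (W m)) (hw : ∀ m, StronglyMeasurable (w m))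
    {K : ℝ≥0∞} (hKt : K ≠ ⊤) (hK : ∀ m, eLpNorm (w m) 2 volume ≤ K)
    (hφ : ∀ φ, IsVT Ω φ → Tendsto (fun m => eLpNorm (pr (w m) φ) 2 volume) atTop (𝓝 0))
    {z : Eu n → Eu n} (hz : MemLp z 2 volume) :
    Tendsto (fun m => eLpNorm (pr (w m) z) 2 volume) atTop (𝓝 0) := by
  have hw2 : ∀ m, MemLp (w m) 2 volume := fun m => (hV m).memv
  set S := goodSub w hw hw2 with hS
  have hSc := goodSub_closed hw hw2 hKt hK
  set Y : Submodule ℝ (Lp (Eu n) 2 (volume : Measure (Eu n))) :=
    (Submodule.span ℝ {f | ∃ (φ : Eu n → Eu n) (h : IsVT Ω φ), f = (vt_memLp h).toLp φ}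
      ).topologicalClosure with hY
  have hY1 : Y ≤ S := by
    refine Submodule.topologicalClosure_minimal _ (Submodule.span_le.2 ?_) hSc
    rintro _ ⟨φ, h, rfl⟩
    show Tendsto _ _ _
    refine (hφ φ h).congr fun m => ?_
    have : pr (w m) ((vt_memLp h).toLp φ) = pr (w m) φ := by
      funext t
      exact pr_congr_right _ (vt_memLp h).coeFn_toLp t
    rw [this]
  have hY2 : Yᗮ ≤ S := by
    intro f hf
    have h1 : ∀ m, eLpNorm (pr (w m) f) 2 volume = 0 := by
      intro m
      refine vel_perp (hV m) (hw m) (Lp.memLp f) fun φ h => ?_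
      rw [← inner_toLp' (vt_memLp h)]
      refine (Submodule.mem_orthogonal _ _).1 hf _ ?_
      exact Submodule.le_topologicalClosure _ (Submodule.subset_span ⟨φ, h, rfl⟩)
    show Tendsto _ _ _
    simp only [h1]
    exact tendsto_const_nhds
  have hYcl : IsClosed (Y : Set (Lp (Eu n) 2 (volume : Measure (Eu n)))) :=
    Submodule.isClosed_topologicalClosure _
  have : CompleteSpace Y := hYcl.completeSpace_coe
  have h1 : hz.toLp z ∈ S := by
    have h2 : (⊤ : Submodule ℝ (Lp (Eu n) 2 (volume : Measure (Eu n)))) ≤ S := by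
      rw [← Submodule.sup_orthogonal_of_hasOrthogonalProjection (K := Y)]
      exact sup_le hY1 hY2
    exact h2 trivial
  have h2 : Tendsto (fun m => eLpNorm (pr (w m) (hz.toLp z)) 2 volume) atTop (𝓝 0) := h1
  refine h2.congr fun m => ?_
  have : pr (w m) (hz.toLp z) = pr (w m) z := by
    funext t
    exact pr_congr_right _ hz.coeFn_toLp t
  rw [this]

end Pool.Agent.Helper41.Jef
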