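import Pool.Agent.Helper41.Jef.Vel

/-! # Elementary fields and their closure -/

open MeasureTheory Set Filter Topology
open scoped ENNReal NNReal ContDiff

namespace Pool.Agent.Helper41.Jef

open Pool.Agent.Helper42.Jef

variable {n : ℕ}

theorem vt_zero_of_notMem {Ω : Set (Eu n)} {φ : Eu n → Eu n} (h : IsVT Ω φ) {x : Eu n}
    (hx : x ∉ Ω) : φ x = 0 := by
  by_contra h0
  exact hx (h.supp (subset_tsupport _ h0))

theorem fderiv_lincomb {N : ℕ} {φ : Fin N → Eu n → Eu n} (h : ∀ j, ContDiff ℝ ∞ (φ j))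
    (c : Fin N → ℝ) (x : Eu n) :
    fderiv ℝ (fun x => ∑ j, c j • φ j x) x = ∑ j, c j • fderiv ℝ (φ j) x := by
  have h1 : ∀ j, HasFDerivAt (fun x => c j • φ j x) (c j • fderiv ℝ (φ j) x) x := fun j =>
    (((h j).differentiable (by simp)) x).hasFDerivAt.const_smul (c j)
  exact (HasFDerivAt.fun_sum fun j _ => h1 j).fderiv

theorem grad_lincomb {N : ℕ} {φ : Fin N → Eu n → Eu n} (h : ∀ j, ContDiff ℝ ∞ (φ j))
    (c : Fin N → ℝ) (x : Eu n) :
    grad (fun x => ∑ j, c j • φ j x) x = ∑ j, c j • grad (φ j) x := by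
  unfold grad
  rw [fderiv_lincomb h]
  ext p
  simp

theorem vt_lincomb {Ω : Set (Eu n)} {N : ℕ} {φ : Fin N → Eu n → Eu n} (h : ∀ j, IsVT Ω (φ j))
    (c : Fin N → ℝ) : IsVT Ω (fun x => ∑ j, c j • φ j x) := by
  have hK : IsCompact (⋃ j, tsupport (φ j)) := isCompact_iUnion fun j => (h j).cpt
  have h0 : ∀ x, x ∉ ⋃ j, tsupport (φ j) → ∑ j, c j • φ j x = 0 := by
    intro x hx
    refine Finset.sum_eq_zero fun j _ => ?_
    rw [image_eq_zero_of_notMem_tsupport fun h' => hx (mem_iUnion.2 ⟨j, h'⟩), smul_zero]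
  refine ⟨ContDiff.sum fun j _ => (h j).smooth.const_smul (c j),
    HasCompactSupport.intro hK h0, ?_, ?_⟩
  · refine (closure_minimal ?_ hK.isClosed).trans (iUnion_subset fun j => (h j).supp)
    intro x hx
    by_contra h'
    exact hx (h0 x h')
  · intro x
    unfold dvg
    rw [fderiv_lincomb fun j => (h j).smooth]
    have h1 : ∀ i : Fin n, ((∑ j, c j • fderiv ℝ (φ j) x) (bv i)) i =
        ∑ j, c j * (fderiv ℝ (φ j) x (bv i)) i := by
      intro i; simp
    simp only [h1]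
    rw [Finset.sum_comm]
    refine Finset.sum_eq_zero fun j _ => ?_
    rw [← Finset.mul_sum]
    have := (h j).div0 x
    unfold dvg at this
    rw [this, mul_zero]

theorem grad_continuous {φ : Eu n → Eu n} (h : ContDiff ℝ ∞ φ) : Continuous (grad φ) := by
  unfold grad
  refine (PiLp.continuous_toLp 2 _).comp (continuous_pi fun p => ?_)
  have h1 : Continuous fun x => fderiv ℝ φ x (bv p.2) :=
    (h.continuous_fderiv (by simp)).clm_apply continuous_const
  exact (EuclideanSpace.proj (𝕜 := ℝ) p.1).continuous.comp h1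

theorem grad_memLp {φ : Eu n → Eu n} (h : ContDiff ℝ ∞ φ) (hc : HasCompactSupport φ) :
    MemLp (grad φ) 2 volume := by
  refine (grad_continuous h).memLp_of_hasCompactSupport ?_
  refine HasCompactSupport.intro hc.isCompact fun x hx => ?_
  have h1 : fderiv ℝ φ x = 0 := by
    refine image_eq_zero_of_notMem_tsupport fun h' => hx ?_
    exact tsupport_fderiv_subset ℝ h'
  unfold grad
  rw [h1]
  ext p
  simp

theorem vt_memLp {Ω : Set (Eu n)} {φ : Eu n → Eu n} (h : IsVT Ω φ) : MemLp φ 2 volume :=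
  h.smooth.continuous.memLp_of_hasCompactSupport h.cpt

theorem elem_section {Ω : Set (Eu n)} {T : ℝ} {v : ST n → Eu n} {G : ST n → Mt n}
    (h : IsElem Ω T v G) (t : ℝ) :
    IsVT Ω (fun x => v (t, x)) ∧ ∀ x, grad (fun y => v (t, y)) x = G (t, x) := by
  obtain ⟨N, c, φ, -, -, -, hφ, hv, hG⟩ := h
  have h1 : (fun x => v (t, x)) = fun x => ∑ j, c j t • φ j x := by
    funext x; exact hv (t, x)
  rw [h1]
  refine ⟨vt_lincomb hφ _, fun x => ?_⟩
  rw [grad_lincomb fun j => (hφ j).smooth]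
  exact (hG (t, x)).symm

theorem elem_sm {Ω : Set (Eu n)} {T : ℝ} {v : ST n → Eu n} {G : ST n → Mt n}
    (h : IsElem Ω T v G) : StronglyMeasurable v ∧ StronglyMeasurable G := by
  obtain ⟨N, c, φ, hc, -, -, hφ, hv, hG⟩ := h
  have h1 : v = fun z => ∑ j, c j z.1 • φ j z.2 := funext hv
  have h2 : G = fun z => ∑ j, c j z.1 • grad (φ j) z.2 := funext hG
  rw [h1, h2]
  have h3 : ∀ j, StronglyMeasurable fun z : ST n => c j z.1 := fun j =>
    ((hc j).comp measurable_fst).stronglyMeasurable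
  refine ⟨?_, ?_⟩
  · refine Finset.stronglyMeasurable_fun_sum _ fun j _ => (h3 j).smul ?_
    exact ((hφ j).smooth.continuous.comp continuous_snd).stronglyMeasurable
  · refine Finset.stronglyMeasurable_fun_sum _ fun j _ => (h3 j).smul ?_
    exact ((grad_continuous (hφ j).smooth).comp continuous_snd).stronglyMeasurable

theorem elem_zero {Ω : Set (Eu n)} {T : ℝ} {v : ST n → Eu n} {G : ST n → Mt n}
    (h : IsElem Ω T v G) {z : ST n} (hz : z ∉ Ioo 0 T ×ˢ Ω) : v z = 0 := by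
  obtain ⟨N, c, φ, hc, -, hc0, hφ, hv, hG⟩ := h
  rw [hv]
  refine Finset.sum_eq_zero fun j _ => ?_
  by_cases h1 : z.1 ∈ Ioo 0 T
  · rw [vt_zero_of_notMem (hφ j) fun h2 => hz ⟨h1, h2⟩, smul_zero]
  · rw [hc0 j _ h1, zero_smul]

theorem elem_sub {Ω : Set (Eu n)} {T : ℝ} {v v' : ST n → Eu n} {G G' : ST n → Mt n}
    (h : IsElem Ω T v G) (h' : IsElem Ω T v' G') :
    IsElem Ω T (fun z => v z - v' z) (fun z => G z - G' z) := by
  obtain ⟨N, c, φ, hc, hcb, hc0, hφ, hv, hG⟩ := h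
  obtain ⟨N', c', φ', hc', hcb', hc0', hφ', hv', hG'⟩ := h'
  refine ⟨N + N', Fin.append c (fun j t => -(c' j t)), Fin.append φ φ', ?_, ?_, ?_, ?_, ?_, ?_⟩
  · intro j
    refine Fin.addCases (fun i => ?_) (fun i => ?_) j
    · simpa using hc i
    · rw [Fin.append_right]; exact (hc' i).neg
  · intro j
    refine Fin.addCases (fun i => ?_) (fun i => ?_) j
    · simpa using hcb i
    · simpa using hcb' i
  · intro j
    refine Fin.addCases (fun i => ?_) (fun i => ?_) j
    · simpa using hc0 i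
    · intro t ht; simpa using hc0' i t ht
  · intro j
    refine Fin.addCases (fun i => ?_) (fun i => ?_) j
    · simpa using hφ i
    · simpa using hφ' i
  · intro z
    show v z - v' z = _
    rw [Fin.sum_univ_add, hv, hv']
    simp [sub_eq_add_neg]
  · intro z
    show G z - G' z = _
    rw [Fin.sum_univ_add, hG, hG']
    simp [sub_eq_add_neg]

theorem vel_sub {Ω : Set (Eu n)} {T : ℝ} {v v' : ST n → Eu n} {G G' : ST n → Mt n}
    (h : IsVel Ω T v G) (h' : IsVel Ω T v' G') :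
    IsVel Ω T (fun z => v z - v' z) (fun z => G z - G' z) := by
  refine ⟨h.memv.sub h'.memv, h.memG.sub h'.memG, fun ε hε => ?_⟩
  obtain ⟨a, A, hA, ha1, ha2⟩ := h.approx (ε / 2) (by positivity)
  obtain ⟨b, B, hB, hb1, hb2⟩ := h'.approx (ε / 2) (by positivity)
  have hea : ENNReal.ofReal ε = ENNReal.ofReal (ε / 2) + ENNReal.ofReal (ε / 2) := by
    rw [← ENNReal.ofReal_add (by positivity) (by positivity), add_halves]
  refine ⟨_, _, elem_sub hA hB, ?_, ?_⟩
  · have h1 : (fun z => v z - v' z) - (fun z => a z - b z) = (v - a) - (v' - b) := by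
      funext z; simp only [Pi.sub_apply]; abel
    rw [h1, hea]
    exact (eLpNorm_sub_le (h.memv.1.sub (elem_sm hA).1.aestronglyMeasurable)
      (h'.memv.1.sub (elem_sm hB).1.aestronglyMeasurable) (by norm_num)).trans (add_le_add ha1 hb1)
  · have h1 : (fun z => G z - G' z) - (fun z => A z - B z) = (G - A) - (G' - B) := by
      funext z; simp only [Pi.sub_apply]; abel
    rw [h1, hea]
    exact (eLpNorm_sub_le (h.memG.1.sub (elem_sm hA).2.aestronglyMeasurable)
      (h'.memG.1.sub (elem_sm hB).2.aestronglyMeasurable) (by norm_num)).trans (add_le_add ha2 hb2)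

theorem vel_congr {Ω : Set (Eu n)} {T : ℝ} {v v' : ST n → Eu n} {G : ST n → Mt n}
    (h : IsVel Ω T v G) (hv : v =ᵐ[volume] v') : IsVel Ω T v' G := by
  refine ⟨h.memv.ae_eq hv, h.memG, fun ε hε => ?_⟩
  obtain ⟨a, A, hA, ha1, ha2⟩ := h.approx ε hε
  refine ⟨a, A, hA, ?_, ha2⟩
  rw [← eLpNorm_congr_ae (hv.sub (EventuallyEq.refl _ a))]
  exact ha1

theorem eq_zero_of_forall_le {X Z : ℝ≥0∞} (hZ : Z ≠ ⊤)
    (h : ∀ ε : ℝ, 0 < ε → X ≤ ENNReal.ofReal ε * Z) : X = 0 := by
  have h1 : Tendsto (fun k : ℕ => ENNReal.ofReal (1 / ((k : ℝ) + 1)) * Z) atTop (𝓝 (0 * Z)) := by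
    refine ENNReal.Tendsto.mul_const ?_ (Or.inr hZ)
    have := ENNReal.tendsto_ofReal tendsto_one_div_add_atTop_nhds_zero_nat
    rwa [ENNReal.ofReal_zero] at this
  rw [zero_mul] at h1
  exact le_antisymm (ge_of_tendsto' h1 fun k => h _ (by positivity)) bot_le

/-- a velocity field vanishes outside `(0,T) × Ω` -/
theorem vel_zero {Ω : Set (Eu n)} (hΩ : IsOpen Ω) {T : ℝ} {v : ST n → Eu n} {G : ST n → Mt n}
    (h : IsVel Ω T v G) : v =ᵐ[volume] (Ioo 0 T ×ˢ Ω).indicator v := by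
  set S : Set (ST n) := (Ioo 0 T ×ˢ Ω)ᶜ with hS
  have hSm : MeasurableSet S := (measurableSet_Ioo.prod hΩ.measurableSet).compl
  have h1 : eLpNorm v 2 (volume.restrict S) = 0 := by
    refine eq_zero_of_forall_le (Z := 1) (by norm_num) fun ε hε => ?_
    obtain ⟨a, A, hA, ha1, ha2⟩ := h.approx ε hε
    rw [mul_one]
    have h2 : eLpNorm (v - a) 2 (volume.restrict S) ≤ eLpNorm (v - a) 2 volume :=
      eLpNorm_mono_measure (v - a) Measure.restrict_le_self
    refine le_trans (le_of_eq ?_) (h2.trans ha1)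
    refine eLpNorm_congr_ae ?_
    filter_upwards [ae_restrict_mem hSm] with z hz
    rw [Pi.sub_apply, elem_zero hA hz, sub_zero]
  rw [eLpNorm_eq_zero_iff h.memv.1.restrict (by norm_num), EventuallyEq,
    ae_restrict_iff' hSm] at h1
  filter_upwards [h1] with z hz
  by_cases h2 : z ∈ Ioo 0 T ×ˢ Ω
  · rw [indicator_of_mem h2]
  · rw [indicator_of_notMem h2]; exact hz h2

/-- fields orthogonal to all test fields pair to zero with velocity fields -/
theorem vel_perp {Ω : Set (Eu n)} {T : ℝ} {v : ST n → Eu n} {G : ST n → Mt n}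
    (h : IsVel Ω T v G) (hv : StronglyMeasurable v) {z : Eu n → Eu n} (hz : MemLp z 2 volume)
    (hp : ∀ φ, IsVT Ω φ → ∫ x, inner ℝ (φ x) (z x) = 0) : eLpNorm (pr v z) 2 volume = 0 := by
  refine eq_zero_of_forall_le hz.2.ne fun ε hε => ?_
  obtain ⟨a, A, hA, ha1, ha2⟩ := h.approx ε hε
  have h1 : pr v z =ᵐ[volume] pr (v - a) z := by
    filter_upwards [ae_section hv h.memv] with t ht
    have h2 : pr (fun p => v p - a p) z t = pr v z t - pr a z t :=
      pr_sub_left hz ht (vt_memLp (elem_section hA t).1)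
    have h3 : pr a z t = 0 := hp _ (elem_section hA t).1
    show _ = pr (fun p => v p - a p) z t
    rw [h2, h3, sub_zero]
  rw [eLpNorm_congr_ae h1]
  exact (pr_le (hv.sub (elem_sm hA).1) hz.1).trans (mul_le_mul' ha1 le_rfl)

end Pool.Agent.Helper41.Jef
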