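import Pool.Agent.Helper41.Jef.Vel
import Pool.Agent.Helper79.JefHorm4
import Pool.Agent.Helper50.JefGaussD
import Pool.Agent.Helper37.JefRepr
import Pool.Agent.Helper44.JefStar
import Pool.Agent.Helper22.JefTVar

/-! # P6: pointwise variance inequality -/

open MeasureTheory Set Filter Topology
open scoped ENNReal NNReal ContDiff

namespace Pool.Agent.Helper41.Jef

open Pool.Agent.Helper42.Jef

variable {n : ℕ}

/-- smooth functions decreasing to the indicator of a closed ball -/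
theorem exists_ball_cutoff {Ω : Set (Eu n)} {T : ℝ} {z : ST n} {r R : ℝ} (hr : 0 < r) (hrR : r < R)
    (hR : Metric.closedBall z R ⊆ Ioo 0 T ×ˢ Ω) : ∃ χ : ST n → ℝ, IsTestST Ω T χ ∧
      (∀ y, 0 ≤ χ y ∧ χ y ≤ 1) ∧ (∀ y ∈ Metric.closedBall z r, χ y = 1) ∧
      ∀ y, R ≤ dist y z → χ y = 0 := by
  set b : ContDiffBump z := ⟨r, R, hr, hrR⟩ with hb
  refine ⟨b, ⟨b.contDiff, b.hasCompactSupport, ?_⟩, fun y => ⟨b.nonneg, b.le_one⟩,
    fun y hy => b.one_of_mem_closedBall hy, fun y hy => b.zero_of_le_dist hy⟩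
  rw [b.tsupport_eq]
  exact hR

/-- pointwise inequality from squares of test functions -/
theorem ae_le_of_tests {Ω : Set (Eu n)} (hΩ : IsOpen Ω) {T A' : ℝ} {V θ : ST n → ℝ}
    (hV : Integrable V) (hθ : Integrable θ)
    (h : ∀ χ, IsTestST Ω T χ → ∫ z, χ z ^ 2 * V z ≤ A' * ∫ z, χ z ^ 2 * θ z) :
    ∀ᵐ z : ST n, z.1 ∈ Ioo 0 T → z.2 ∈ Ω → V z ≤ A' * θ z := by
  set f : ST n → ℝ := fun z => A' * θ z - V z with hf
  have hfi : Integrable f := (hθ.const_mul A').sub hV
  have hU : IsOpen (Ioo 0 T ×ˢ Ω) := isOpen_Ioo.prod hΩ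
  have hsq : ∀ {χ : ST n → ℝ} {g : ST n → ℝ}, IsTestST Ω T χ → Integrable g →
      Integrable (fun z => χ z ^ 2 * g z) := by
    intro χ g hχ hg
    obtain ⟨B, hB⟩ := hχ.cpt.exists_bound_of_continuous hχ.smooth.continuous
    refine hg.bdd_mul (c := B ^ 2) ((hχ.smooth.continuous.pow 2).aestronglyMeasurable)
      (Eventually.of_forall fun z => ?_)
    rw [norm_pow]
    exact pow_le_pow_left₀ (norm_nonneg _) (hB z) 2
  -- the integral of `f` over closed balls inside is nonnegative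
  have hball : ∀ z : ST n, ∀ r : ℝ, 0 < r → ∀ R, r < R →
      Metric.closedBall z R ⊆ Ioo 0 T ×ˢ Ω → 0 ≤ ∫ y in Metric.closedBall z r, f y := by
    intro z r hr R hrR hR
    have hex : ∀ k : ℕ, ∃ χ : ST n → ℝ, IsTestST Ω T χ ∧
        (∀ y, 0 ≤ χ y ∧ χ y ≤ 1) ∧ (∀ y ∈ Metric.closedBall z r, χ y = 1) ∧
        ∀ y, r + (R - r) / ((k : ℝ) + 1) ≤ dist y z → χ y = 0 := by
      intro k
      have h1 : (R - r) / ((k : ℝ) + 1) ≤ R - r :=
        div_le_self (by linarith) (by linarith [(Nat.cast_nonneg k : (0:ℝ) ≤ k)])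
      have h2 : 0 < (R - r) / ((k : ℝ) + 1) := by
        have : 0 < R - r := by linarith
        positivity
      exact exists_ball_cutoff hr (by linarith)
        ((Metric.closedBall_subset_closedBall (by linarith)).trans hR)
    choose χ hχt hχ01 hχ1 hχ0 using hex
    have h1 : ∀ k, 0 ≤ ∫ y, χ k y ^ 2 * f y := by
      intro k
      have h2 := h (χ k) (hχt k)
      have h3 : ∫ y, χ k y ^ 2 * f y = A' * (∫ y, χ k y ^ 2 * θ y) - ∫ y, χ k y ^ 2 * V y := by
        rw [← integral_const_mul, ← integral_sub ((hsq (hχt k) hθ).const_mul A')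
          (hsq (hχt k) hV)]
        refine integral_congr_ae (Eventually.of_forall fun y => ?_)
        simp only [hf]; ring
      rw [h3]; linarith
    have h2 : Tendsto (fun k => ∫ y, χ k y ^ 2 * f y) atTop
        (𝓝 (∫ y, (Metric.closedBall z r).indicator f y)) := by
      refine tendsto_integral_of_dominated_convergence (fun y => ‖f y‖) ?_ hfi.norm ?_ ?_
      · exact fun k => (hsq (hχt k) hfi).1
      · intro k
        refine Eventually.of_forall fun y => ?_
        rw [norm_mul, norm_pow, Real.norm_of_nonneg (hχ01 k y).1]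
        have := pow_le_one₀ (n := 2) (hχ01 k y).1 (hχ01 k y).2
        exact mul_le_of_le_one_left (norm_nonneg _) this
      · refine Eventually.of_forall fun y => ?_
        by_cases hy : y ∈ Metric.closedBall z r
        · have : (fun k => χ k y ^ 2 * f y) = fun _ => (Metric.closedBall z r).indicator f y := by
            funext k
            rw [hχ1 k y hy, indicator_of_mem hy]; ring
          rw [this]
          exact tendsto_const_nhds
        · have hy' : r < dist y z := by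
            rw [Metric.mem_closedBall, not_le] at hy; exact hy
          have h3 : Tendsto (fun k : ℕ => r + (R - r) * (1 / ((k : ℝ) + 1))) atTop
              (𝓝 (r + (R - r) * 0)) :=
            (tendsto_one_div_add_atTop_nhds_zero_nat.const_mul _).const_add _
          rw [mul_zero, add_zero] at h3
          rw [indicator_of_notMem hy]
          refine tendsto_const_nhds.congr' ?_
          filter_upwards [(tendsto_order.1 h3).2 _ hy'] with k hk
          have h4 : χ k y = 0 := by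
            refine hχ0 k y ?_
            rw [div_eq_mul_one_div]
            exact hk.le
          rw [h4]; ring
    rw [integral_indicator Metric.isClosed_closedBall.measurableSet] at h2
    exact ge_of_tendsto' h2 h1
  have hleb := IsUnifLocDoublingMeasure.ae_tendsto_average
    ((volume : Measure ℝ).prod (volume : Measure (Eu n))) hfi.locallyIntegrable 1
  filter_upwards [hleb] with z hz h1 h2
  have hzU : z ∈ Ioo 0 T ×ˢ Ω := ⟨h1, h2⟩
  obtain ⟨R, hR, hRU⟩ := Metric.nhds_basis_closedBall.mem_iff.1 (hU.mem_nhds hzU)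
  have h3 := hz (fun _ : ℝ => z) (fun r : ℝ => r) (l := 𝓝[>] 0) tendsto_id
    (by filter_upwards [self_mem_nhdsWithin] with r hr
        exact Metric.mem_closedBall_self (by rw [one_mul]; exact (le_of_lt hr)))
  have h4 : ∀ᶠ r : ℝ in 𝓝[>] 0,
      0 ≤ ⨍ y in Metric.closedBall z r, f y ∂((volume : Measure ℝ).prod (volume : Measure (Eu n))) := by
    filter_upwards [self_mem_nhdsWithin, nhdsWithin_le_nhds (Iio_mem_nhds hR)] with r hr hr2
    rw [setAverage_eq]
    refine smul_nonneg (by positivity) ?_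
    have h5 := hball z r hr R hr2 hRU
    exact h5
  have h5 : 0 ≤ f z := ge_of_tendsto h3 h4
  simp only [hf] at h5
  linarith

/-- properties `repr` and `star` combined (same text as in the skeleton) -/
def ReprStar (n : ℕ) (μ c : ℝ) : Prop :=
  ∃ A' : ℝ, 0 ≤ A' ∧ ∀ (Ω : Set (Eu n)), IsOpen Ω → Bornology.IsBounded Ω → ∀ T : ℝ, 0 < T →
    ∀ (w : ℕ → ST n → Eu n) (g : ℕ → ST n → Mt n) (gl : ST n → Mt n) (h : ℕ → ST n → Eu n)
      (t : ℕ → ST n → Mt n) (tl : ST n → Mt n) (gk tk : ℕ → ST n → Mt n) (ga ta : ℕ → ST n → ℝ)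
      (V θ : ST n → ℝ) (M : ℝ),
    (∀ m, IsVel Ω T (w m) (fun z => g m z - gl z)) →
    Tendsto (fun m => eLpNorm (w m) 2 volume) atTop (𝓝 0) →
    (∀ m, Integrable (h m)) → (∀ m, ∫ z, ‖h m z‖ ≤ M) →
    (∀ ψ, IsTestST Ω T ψ → ∀ i, Tendsto (fun m => ∫ z, h m z i * ψ z) atTop (𝓝 0)) →
    (∀ m, ∀ i j : Fin n, ∀ ψ, IsTestST Ω T ψ →
      ∫ z, ((g m z - gl z) (i, j) - (g m z - gl z) (j, i)) *
        (dt ψ z + μ * ∑ l, dx l (dx l ψ) z) =
      ∫ z, (-(h m z i * dx j ψ z) + h m z j * dx i ψ z - c * ∑ l,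
        (sy (t m z - tl z) (l, i) * dx l (dx j ψ) z - sy (t m z - tl z) (l, j) * dx l (dx i ψ) z))) →
    TV volume g gl gk ga → TV volume t tl tk ta → Integrable V → Integrable θ →
    Tendsto (fun k => ∫ z, |ga k z - ‖gk k z‖ ^ 2 - V z|) atTop (𝓝 0) →
    Tendsto (fun k => ∫ z, |ta k z - ‖tk k z‖ ^ 2 - θ z|) atTop (𝓝 0) →
    ∀ᵐ z : ST n, z.1 ∈ Ioo 0 T → z.2 ∈ Ω → V z ≤ A' * θ z

theorem inner_integrable' {f g : ST n → Mt n} (hf : MemLp f 2 volume) (hg : MemLp g 2 volume) :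
    Integrable (fun x => inner ℝ (f x) (g x)) volume := by
  have := L2.integrable_inner (𝕜 := ℝ) (hf.toLp f) (hg.toLp g)
  refine this.congr ?_
  filter_upwards [hf.coeFn_toLp, hg.coeFn_toLp] with x h1 h2
  rw [h1, h2]

theorem wc_diff_bound {u : ℕ → ST n → Mt n} {U : ST n → Mt n} (h : WC volume u U) :
    ∃ M : ℝ, ∀ m, eLpNorm (fun z => u m z - U z) 2 volume ≤ ENNReal.ofReal M := by
  obtain ⟨C, hC⟩ := h.bdd
  refine ⟨max C 0 + (eLpNorm U 2 volume).toReal, fun m => ?_⟩
  rw [ENNReal.ofReal_add (le_max_right _ _) ENNReal.toReal_nonneg,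
    ENNReal.ofReal_toReal h.memU.2.ne]
  exact (eLpNorm_sub_le (h.mem m).1 h.memU.1 (by norm_num)).trans
    (add_le_add ((hC m).trans (ENNReal.ofReal_le_ofReal (le_max_left _ _))) le_rfl)

/-- P6b: `ReprStar` from `repr`, `star` and `ae_le_of_tests` -/
theorem reprStar (n : ℕ) {μ : ℝ} (hμ : 0 < μ) (c : ℝ) : ReprStar n μ c := by
  have hKM : Pool.Agent.Helper37.Jef.KMain n μ := Pool.Agent.Helper79.Horm.kernel_main n hμ
  have hKE : Pool.Agent.Helper37.Jef.KEll n μ := Pool.Agent.Helper79.Horm.kernel_ell n hμ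
  have hKL : Pool.Agent.Helper37.Jef.KLow n μ := fun l hl T =>
    Pool.Agent.Helper50.JG.kernel_low n hμ l hl T
  obtain ⟨A, C, hrep⟩ := Pool.Agent.Helper37.Jef.repr_of n hμ hKM hKE hKL c
  obtain ⟨A', hA', hstar⟩ := Pool.Agent.Helper44.Jef.star_of_tv n (fun u U uk ak h => by
    obtain ⟨_, _, _, _, _, _, h5, _, h7⟩ := Pool.Agent.Helper22.Jef.tv_main h
    exact ⟨h5, h7⟩) A C
  refine ⟨A', hA', ?_⟩
  intro Ω hΩ hΩb T hT w g gl h t tl gk tk ga ta V θ M hw hw0 hhi hhM hhw hvort hTg hTt hV hθ hVc hθc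
  refine ae_le_of_tests hΩ hV hθ fun χ hχ => ?_
  obtain ⟨M1, hM1⟩ := wc_diff_bound hTg.w
  obtain ⟨M2, hM2⟩ := wc_diff_bound hTt.w
  have hσw : ∀ ψ, IsTestST Ω T ψ → ∀ p, Tendsto (fun m => ∫ z, (t m z - tl z) p * ψ z) atTop
      (𝓝 0) := by
    intro ψ hψ p
    have hψ2 : MemLp ψ 2 volume := hψ.smooth.continuous.memLp_of_hasCompactSupport hψ.cpt
    have hg : MemLp (fun z => ψ z • (EuclideanSpace.single p (1:ℝ) : Mt n)) 2 volume := by
      refine hψ2.of_le_mul (c := ‖(EuclideanSpace.single p (1:ℝ) : Mt n)‖)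
        (hψ2.1.smul aestronglyMeasurable_const) (Eventually.of_forall fun z => ?_)
      rw [norm_smul, mul_comm]
    have h1 := (hTt.w.conv _ hg).sub_const (∫ z, inner ℝ (tl z)
      (ψ z • (EuclideanSpace.single p (1:ℝ) : Mt n)))
    rw [sub_self] at h1
    refine h1.congr fun m => ?_
    rw [← integral_sub (inner_integrable' (hTt.w.mem m) hg)
      (inner_integrable' hTt.w.memU hg)]
    refine integral_congr_ae (Eventually.of_forall fun z => ?_)
    simp only [inner_smul_right, EuclideanSpace.inner_single_right]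
    simp
    ring
  obtain ⟨κ, hκ1, hκ2, hκ3, hκ4⟩ := hrep Ω hΩ hΩb T hT w (fun m z => g m z - gl z) h
    (fun m z => t m z - tl z) (max M (max M1 M2)) hw hw0
    (fun m => (hM1 m).trans (ENNReal.ofReal_le_ofReal
      ((le_max_left _ _).trans (le_max_right _ _)))) hhi
    (fun m => (hhM m).trans (le_max_left _ _))
    (fun m => (hTt.w.mem m).sub hTt.w.memU)
    (fun m => (hM2 m).trans (ENNReal.ofReal_le_ofReal
      ((le_max_right _ _).trans (le_max_right _ _)))) hhw hσw hvort χ hχ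
  exact hstar g gl gk ga t tl tk ta V θ hTg hTt hV hθ hVc hθc χ hχ.smooth.continuous hχ.cpt κ
    hκ1 hκ2 hκ3 hκ4

end Pool.Agent.Helper41.Jef
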