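import Pool.Agent.Helper41.Jef.BasicA

/-! # Time compactness for scalar functions -/

open MeasureTheory Set Filter Topology
open scoped ENNReal NNReal ContDiff

namespace Pool.Agent.Helper41.Jef

open Pool.Agent.Helper42.Jef

theorem prim_isTime {T a b : ℝ} (ha : 0 < a) (hb : b < T) {p : ℝ → ℝ} (hp : ContDiff ℝ ∞ p)
    (h0 : ∀ t, t ∉ Icc a b → p t = 0) (hi : ∫ t, p t = 0) :
    IsTime 0 T (fun t => ∫ s in (0:ℝ)..t, p s) ∧
      (∀ t, deriv (fun t => ∫ s in (0:ℝ)..t, p s) t = p t) ∧
      ∀ t, t ∉ Icc a b → ∫ s in (0:ℝ)..t, p s = 0 := by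
  have hder : ∀ t, HasDerivAt (fun t => ∫ s in (0:ℝ)..t, p s) (p t) t := by
    intro t
    exact intervalIntegral.integral_hasDerivAt_right (hp.continuous.intervalIntegrable _ _)
      hp.continuous.aestronglyMeasurable.stronglyMeasurableAtFilter
      hp.continuous.continuousAt
  have hder' : deriv (fun t => ∫ s in (0:ℝ)..t, p s) = p := funext fun t => (hder t).deriv
  have hv : ∀ t, t ∉ Icc a b → ∫ s in (0:ℝ)..t, p s = 0 := by
    intro t ht
    by_cases h1 : t < a
    · have : ∀ s ∈ uIcc 0 t, p s = 0 := by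
        intro s hs
        refine h0 s fun hs' => ?_
        have h3 : s ≤ max 0 t := hs.2
        have h2 : max 0 t < a := max_lt ha h1
        linarith [hs'.1]
      have h2 : ∫ s in (0:ℝ)..t, p s = ∫ s in (0:ℝ)..t, (0:ℝ) :=
        intervalIntegral.integral_congr this
      rw [h2]; simp
    · push Not at h1
      have h2 : b < t := by
        by_contra h3
        push Not at h3
        exact ht ⟨h1, h3⟩
      rw [intervalIntegral.integral_of_le (by linarith)]
      rw [setIntegral_eq_integral_of_forall_compl_eq_zero, hi]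
      intro s hs
      refine h0 s fun hs' => hs ⟨by linarith [hs'.1], by linarith [hs'.2]⟩
  refine ⟨⟨?_, ?_, ?_⟩, fun t => (hder t).deriv, hv⟩
  · rw [contDiff_infty_iff_deriv, hder']
    exact ⟨fun t => (hder t).differentiableAt, hp⟩
  · exact HasCompactSupport.intro isCompact_Icc (fun t ht => hv t ht)
  · have h1 : tsupport (fun t => ∫ s in (0:ℝ)..t, p s) ⊆ Icc a b := by
      refine closure_minimal ?_ isClosed_Icc
      intro t ht
      by_contra h2
      exact ht (hv t h2)
    intro t ht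
    have := h1 ht
    exact ⟨by linarith [this.1], by linarith [this.2]⟩

theorem abs_setIntegral_le {A : Set ℝ} {T : ℝ} (hT : 0 ≤ T) (hA : volume A ≤ ENNReal.ofReal T)
    {h : ℝ → ℝ} (hh : MemLp h 2 volume) :
    |∫ t in A, h t| ≤ Real.sqrt T * (eLpNorm h 2 volume).toReal := by
  have h1 := enorm_integral_sq_le (μ := volume.restrict A) hh.1.restrict
  have h2 : ‖∫ t in A, h t‖ₑ ^ 2 ≤ ENNReal.ofReal T * eLpNorm h 2 volume ^ 2 := by
    refine h1.trans ?_
    rw [Measure.restrict_apply_univ, eLpNorm_two_sq]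
    exact mul_le_mul' hA (lintegral_mono' Measure.restrict_le_self le_rfl)
  have h3 : |∫ t in A, h t| ^ 2 ≤ T * (eLpNorm h 2 volume).toReal ^ 2 := by
    have h4 := ENNReal.toReal_mono
      (ENNReal.mul_ne_top ENNReal.ofReal_ne_top (ENNReal.pow_ne_top hh.2.ne)) h2
    rw [ENNReal.toReal_mul, ENNReal.toReal_pow, ENNReal.toReal_pow, toReal_enorm,
      ENNReal.toReal_ofReal hT] at h4
    exact h4
  have h4 : |∫ t in A, h t| ^ 2 ≤ (Real.sqrt T * (eLpNorm h 2 volume).toReal) ^ 2 := by
    rw [mul_pow, Real.sq_sqrt hT]; exact h3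
  exact (pow_le_pow_iff_left₀ (abs_nonneg _) (by positivity) (by norm_num)).1 h4

theorem abs_integral_mul_le {f g : ℝ → ℝ} (hf : MemLp f 2 volume) (hg : MemLp g 2 volume) :
    |∫ t, f t * g t| ≤ (eLpNorm f 2 volume).toReal * (eLpNorm g 2 volume).toReal := by
  have h1 : ‖∫ t, f t * g t‖ₑ ≤ ∫⁻ t, ‖f t‖ₑ * ‖g t‖ₑ := by
    refine (enorm_integral_le_lintegral_enorm _).trans (le_of_eq ?_)
    simp only [enorm_mul]
  have h2 : ‖∫ t, f t * g t‖ₑ ^ 2 ≤ eLpNorm f 2 volume ^ 2 * eLpNorm g 2 volume ^ 2 := by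
    rw [eLpNorm_two_sq, eLpNorm_two_sq]
    exact (pow_le_pow_left₀ zero_le h1 2).trans (lintegral_mul_sq_le hf.1.enorm hg.1.enorm)
  have h4 := ENNReal.toReal_mono
      (ENNReal.mul_ne_top (ENNReal.pow_ne_top hf.2.ne) (ENNReal.pow_ne_top hg.2.ne)) h2
  rw [ENNReal.toReal_mul, ENNReal.toReal_pow, ENNReal.toReal_pow, ENNReal.toReal_pow,
    toReal_enorm, ← mul_pow] at h4
  exact (pow_le_pow_iff_left₀ (abs_nonneg _) (by positivity) (by norm_num)).1 h4

theorem exists_cutoffs {T a : ℝ} (ha : 0 < a) (haT : a < T / 2) :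
    ∃ b κ : ℝ → ℝ, ContDiff ℝ ∞ b ∧ (∀ t, 0 ≤ b t ∧ b t ≤ 1) ∧
      (∀ t ∈ Ioo a (T - a), b t = 1) ∧ (∀ t, t ∉ Icc (a / 2) (T - a / 2) → b t = 0) ∧
      ContDiff ℝ ∞ κ ∧ (∫ t, κ t = 1) ∧ (∀ t, t ∉ Icc (a / 2) (T - a / 2) → κ t = 0) ∧
      HasCompactSupport κ := by
  set b : ContDiffBump (T / 2 : ℝ) := ⟨T / 2 - a, T / 2 - a / 2, by linarith, by linarith⟩
    with hbdef
  have hb1 : ∀ t ∈ Ioo a (T - a), b t = 1 := by
    intro t ht
    refine b.one_of_mem_closedBall ?_
    rw [Metric.mem_closedBall, Real.dist_eq, abs_le]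
    show -(T / 2 - a) ≤ _ ∧ _ ≤ T / 2 - a
    constructor <;> linarith [ht.1, ht.2]
  have hb0 : ∀ t, t ∉ Icc (a / 2) (T - a / 2) → b t = 0 := by
    intro t ht
    refine b.zero_of_le_dist ?_
    show T / 2 - a / 2 ≤ _
    rw [Real.dist_eq]
    by_contra h
    push Not at h
    rw [abs_lt] at h
    exact ht ⟨by linarith [h.1], by linarith [h.2]⟩
  refine ⟨b, b.normed volume, b.contDiff, fun t => ⟨b.nonneg, b.le_one⟩, hb1, hb0,
    b.contDiff_normed, b.integral_normed, ?_, b.hasCompactSupport_normed⟩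
  intro t ht
  rw [ContDiffBump.normed_def, hb0 t ht, zero_div]

set_option maxHeartbeats 1600000 in
theorem scalar_core {T a : ℝ} (ha : 0 < a) (haT : a < T / 2) {g : ℕ → ℝ → ℝ} {K : ℝ}
    (hg : ∀ m, MemLp (g m) 2 volume) (hgK : ∀ m, (eLpNorm (g m) 2 volume).toReal ≤ K)
    (hw : ∀ A : Set ℝ, MeasurableSet A → volume A < ⊤ →
      Tendsto (fun m => ∫ t in A, g m t) atTop (𝓝 0))
    (hb : ∀ ε : ℝ, 0 < ε → ∃ (C : ℝ) (m0 : ℕ), ∀ m ≥ m0, ∀ η, IsTime 0 T η →
      |∫ t, deriv η t * g m t| ≤ C * Real.sqrt (∫ t, η t ^ 2) + ε * ∫ t, |deriv η t|) :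
    Tendsto (fun m => ∫ t in Ioo a (T - a), g m t ^ 2) atTop (𝓝 0) := by
  have hT : 0 < T := by linarith
  have hK : 0 ≤ K := ENNReal.toReal_nonneg.trans (hgK 0)
  obtain ⟨b, κ, hbs, hb01, hb1, hb0, hκs, hκi, hκ0, hκc⟩ := exists_cutoffs ha haT
  have hκm : MemLp κ 2 volume := hκs.continuous.memLp_of_hasCompactSupport hκc
  set Ia : Set ℝ := Ioo a (T - a) with hIa
  have hIam : MeasurableSet Ia := measurableSet_Ioo
  have hgi : ∀ m, MemLp (Ia.indicator (g m)) 2 volume := fun m => (hg m).indicator hIam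
  have hex : ∀ m : ℕ, ∃ f : ℝ → ℝ, HasCompactSupport f ∧ ContDiff ℝ ∞ f ∧
      eLpNorm (Ia.indicator (g m) - f) 2 volume ≤ ENNReal.ofReal (1 / ((m : ℝ) + 1)) := fun m =>
    (hgi m).exist_eLpNorm_sub_le (by norm_num) (by norm_num) (by positivity)
  choose f hfc hfs hfe using hex
  have hbf : ∀ m, ContDiff ℝ ∞ (fun t => b t * f m t) := fun m => hbs.mul (hfs m)
  have hbfc : ∀ m, HasCompactSupport (fun t => b t * f m t) := fun m =>
    (hfc m).mul_left
  have hbfi : ∀ m, Integrable (fun t => b t * f m t) := fun m =>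
    (hbf m).continuous.integrable_of_hasCompactSupport (hbfc m)
  have hκI : Integrable κ := hκs.continuous.integrable_of_hasCompactSupport hκc
  set s : ℕ → ℝ := fun m => ∫ t, b t * f m t with hs
  set p : ℕ → ℝ → ℝ := fun m t => b t * f m t - s m * κ t with hp
  have hps : ∀ m, ContDiff ℝ ∞ (p m) := fun m => (hbf m).sub (contDiff_const.mul hκs)
  have hp0 : ∀ m t, t ∉ Icc (a / 2) (T - a / 2) → p m t = 0 := by
    intro m t ht
    simp only [hp, hb0 t ht, hκ0 t ht]; ring
  have hpi : ∀ m, ∫ t, p m t = 0 := by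
    intro m
    show ∫ t, (b t * f m t - s m * κ t) = 0
    rw [integral_sub (hbfi m) (hκI.const_mul _), integral_const_mul, hκi]
    simp [hs]
  -- the error terms
  set e : ℕ → ℝ → ℝ := fun m t => b t * f m t - Ia.indicator (g m) t with he
  have hem : ∀ m, MemLp (e m) 2 volume := fun m =>
    ((hbf m).continuous.memLp_of_hasCompactSupport (hbfc m)).sub (hgi m)
  have hen : ∀ m : ℕ, (eLpNorm (e m) 2 volume).toReal ≤ 1 / ((m : ℝ) + 1) := by
    intro m
    refine ENNReal.toReal_le_of_le_ofReal (by positivity) (le_trans ?_ (hfe m))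
    refine eLpNorm_mono fun t => ?_
    by_cases ht : t ∈ Ia
    · simp only [he, Pi.sub_apply, hb1 t ht, one_mul]
      rw [norm_sub_rev]
    · simp only [he, Pi.sub_apply, indicator_of_notMem ht, sub_zero, zero_sub, norm_neg, norm_mul]
      have h1 : ‖b t‖ ≤ 1 := by
        rw [Real.norm_of_nonneg (hb01 t).1]; exact (hb01 t).2
      calc ‖b t‖ * ‖f m t‖ ≤ 1 * ‖f m t‖ := mul_le_mul_of_nonneg_right h1 (norm_nonneg _)
        _ = _ := one_mul _
  have hloc : ∀ m (A : Set ℝ), MeasurableSet A → A ⊆ Icc 0 T → |∫ t in A, e m t| ≤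
      Real.sqrt T * (1 / ((m : ℝ) + 1)) := by
    intro m A hA hAT
    have hv : volume A ≤ ENNReal.ofReal T := by
      refine (measure_mono hAT).trans ?_
      rw [Real.volume_Icc, sub_zero]
    exact (abs_setIntegral_le hT.le hv (hem m)).trans
      (mul_le_mul_of_nonneg_left (hen m) (Real.sqrt_nonneg _))
  have h1m : Tendsto (fun m : ℕ => 1 / ((m : ℝ) + 1)) atTop (𝓝 0) :=
    tendsto_one_div_add_atTop_nhds_zero_nat
  have hs0 : Tendsto s atTop (𝓝 0) := by
    have h1 : ∀ m, s m = (∫ t in Icc 0 T, e m t) + ∫ t in Ia, g m t := by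
      intro m
      have h2 : s m = ∫ t in Icc 0 T, b t * f m t := by
        rw [setIntegral_eq_integral_of_forall_compl_eq_zero]
        intro t ht
        rw [hb0 t fun h => ht ⟨by linarith [h.1], by linarith [h.2]⟩, zero_mul]
      have h3 : ∫ t in Ia, g m t = ∫ t in Icc 0 T, Ia.indicator (g m) t := by
        have h4 : Icc 0 T ∩ Ia = Ia := by
          refine inter_eq_right.2 ?_
          intro t ht
          exact ⟨by linarith [ht.1], by linarith [ht.2]⟩
        rw [setIntegral_indicator hIam, h4]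
      have : IsFiniteMeasure (volume.restrict (Icc 0 T)) := by
        constructor; simp
      rw [h2, h3, ← integral_add (((hem m).restrict _).integrable (by norm_num))
        (((hgi m).restrict _).integrable (by norm_num))]
      refine integral_congr_ae (Eventually.of_forall fun t => ?_)
      simp only [he]; ring
    have h2 : Tendsto (fun m => ∫ t in Icc 0 T, e m t) atTop (𝓝 0) := by
      refine squeeze_zero_norm (fun m => hloc m _ measurableSet_Icc subset_rfl) ?_
      simpa using h1m.const_mul (Real.sqrt T)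
    have h3 := h2.add (hw Ia hIam (by rw [hIa, Real.volume_Ioo]; exact ENNReal.ofReal_lt_top))
    rw [add_zero] at h3
    exact h3.congr fun m => (h1 m).symm
  set d : ℕ → ℝ → ℝ := fun m t => p m t - Ia.indicator (g m) t with hd
  have hde : ∀ m, d m = fun t => e m t - s m * κ t := by
    intro m; funext t; simp only [hd, he, hp]; ring
  have hdm : ∀ m, MemLp (d m) 2 volume := by
    intro m; rw [hde]; exact (hem m).sub (hκm.const_mul _)
  have hdn : ∀ m, (eLpNorm (d m) 2 volume).toReal ≤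
      1 / ((m : ℝ) + 1) + |s m| * (eLpNorm κ 2 volume).toReal := by
    intro m
    rw [hde]
    have h1 : eLpNorm (fun t => e m t - s m * κ t) 2 volume ≤
        eLpNorm (e m) 2 volume + ‖s m‖ₑ * eLpNorm κ 2 volume := by
      refine (eLpNorm_sub_le (hem m).1 (hκm.const_mul _).1 (by norm_num)).trans ?_
      refine add_le_add le_rfl (le_of_eq ?_)
      exact eLpNorm_const_smul (s m) κ 2 volume
    have h2 := ENNReal.toReal_mono (ENNReal.add_ne_top.2
      ⟨(hem m).2.ne, ENNReal.mul_ne_top enorm_ne_top hκm.2.ne⟩) h1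
    rw [ENNReal.toReal_add (hem m).2.ne (ENNReal.mul_ne_top enorm_ne_top hκm.2.ne),
      ENNReal.toReal_mul, toReal_enorm] at h2
    exact h2.trans (add_le_add (hen m) le_rfl)
  have hd0 : Tendsto (fun m => (eLpNorm (d m) 2 volume).toReal) atTop (𝓝 0) := by
    refine squeeze_zero (fun m => ENNReal.toReal_nonneg) hdn ?_
    have h1 : Tendsto (fun m => |s m|) atTop (𝓝 0) := by
      simpa using hs0.abs
    simpa using h1m.add (h1.mul_const _)
  have hd1 : ∀ᶠ m in atTop, (eLpNorm (d m) 2 volume).toReal ≤ 1 := by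
    filter_upwards [(tendsto_order.1 hd0).2 1 (by norm_num)] with m hm using hm.le
  have hpm : ∀ m, MemLp (p m) 2 volume := by
    intro m
    have : p m = fun t => d m t + Ia.indicator (g m) t := by
      funext t; simp only [hd]; ring
    rw [this]; exact (hdm m).add (hgi m)
  have hpn : ∀ m, (eLpNorm (p m) 2 volume).toReal ≤ (eLpNorm (d m) 2 volume).toReal + K := by
    intro m
    have h0 : p m = fun t => d m t + Ia.indicator (g m) t := by
      funext t; simp only [hd]; ring
    have h1 : eLpNorm (p m) 2 volume ≤ eLpNorm (d m) 2 volume + eLpNorm (g m) 2 volume := by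
      rw [h0]
      refine (eLpNorm_add_le (hdm m).1 (hgi m).1 (by norm_num)).trans ?_
      exact add_le_add le_rfl (eLpNorm_indicator_le _)
    have h2 := ENNReal.toReal_mono (ENNReal.add_ne_top.2 ⟨(hdm m).2.ne, (hg m).2.ne⟩) h1
    rw [ENNReal.toReal_add (hdm m).2.ne (hg m).2.ne] at h2
    exact h2.trans (add_le_add le_rfl (hgK m))
  -- the primitives
  set η : ℕ → ℝ → ℝ := fun m t => ∫ s in (0:ℝ)..t, p m s with hη
  have hprim := fun m => prim_isTime (T := T) (a := a / 2) (b := T - a / 2) (by linarith)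
    (by linarith) (hps m) (hp0 m) (hpi m)
  have hηd : ∀ m, deriv (η m) = p m := fun m => funext (hprim m).2.1
  have hη0 : ∀ m t, t ∉ Ioo 0 T → η m t = 0 := fun m t ht =>
    (hprim m).2.2 t fun h => ht ⟨by linarith [h.1], by linarith [h.2]⟩
  have hηb : ∀ m t, t ∈ Ioo 0 T → |η m t| ≤ Real.sqrt T * ((eLpNorm (d m) 2 volume).toReal + K) := by
    intro m t ht
    show |∫ s in (0:ℝ)..t, p m s| ≤ _
    rw [intervalIntegral.integral_of_le ht.1.le]
    refine (abs_setIntegral_le hT.le ?_ (hpm m)).trans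
      (mul_le_mul_of_nonneg_left (hpn m) (Real.sqrt_nonneg _))
    rw [Real.volume_Ioc]
    exact ENNReal.ofReal_le_ofReal (by linarith [ht.2])
  have hηt : ∀ t, Tendsto (fun m => η m t) atTop (𝓝 0) := by
    intro t
    by_cases ht : t ∈ Ioo 0 T
    · have h1 : ∀ m, η m t = (∫ t in Ioc 0 t, d m t) + ∫ t in Ioc 0 t ∩ Ia, g m t := by
        intro m
        show ∫ s in (0:ℝ)..t, p m s = _
        have : IsFiniteMeasure (volume.restrict (Ioc 0 t)) := by
          constructor; simp
        rw [intervalIntegral.integral_of_le ht.1.le, ← setIntegral_indicator hIam,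
          ← integral_add (((hdm m).restrict _).integrable (by norm_num))
          (((hgi m).restrict _).integrable (by norm_num))]
        refine integral_congr_ae (Eventually.of_forall fun t => ?_)
        simp only [hd]; ring
      have h2 : Tendsto (fun m => ∫ t in Ioc 0 t, d m t) atTop (𝓝 0) := by
        refine squeeze_zero_norm (fun m => abs_setIntegral_le hT.le ?_ (hdm m)) ?_
        · rw [Real.volume_Ioc]
          exact ENNReal.ofReal_le_ofReal (by linarith [ht.2])
        · simpa using hd0.const_mul (Real.sqrt T)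
      have h3 := h2.add (hw (Ioc 0 t ∩ Ia) (measurableSet_Ioc.inter hIam)
        ((measure_mono inter_subset_left).trans_lt (by simp)))
      rw [add_zero] at h3
      exact h3.congr fun m => (h1 m).symm
    · simp only [hη0 _ t ht]; exact tendsto_const_nhds
  have hη2 : Tendsto (fun m => ∫ t, η m t ^ 2) atTop (𝓝 0) := by
    have h1 : Tendsto (fun m => ∫ t, η m t ^ 2) atTop (𝓝 (∫ _ : ℝ, (0:ℝ))) := by
      refine tendsto_integral_filter_of_dominated_convergence
        ((Ioo 0 T).indicator fun _ => (Real.sqrt T * (1 + K)) ^ 2) ?_ ?_ ?_ ?_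
      · refine Eventually.of_forall fun m => ?_
        exact ((hprim m).1.smooth.continuous.pow 2).aestronglyMeasurable
      · filter_upwards [hd1] with m hm
        refine Eventually.of_forall fun t => ?_
        by_cases ht : t ∈ Ioo 0 T
        · rw [indicator_of_mem ht, norm_pow, Real.norm_eq_abs]
          refine pow_le_pow_left₀ (abs_nonneg _) ((hηb m t ht).trans ?_) 2
          exact mul_le_mul_of_nonneg_left (by linarith) (Real.sqrt_nonneg _)
        · rw [indicator_of_notMem ht, hη0 m t ht]; simp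
      · rw [integrable_indicator_iff measurableSet_Ioo]
        exact integrableOn_const (by simp)
      · refine Eventually.of_forall fun t => ?_
        simpa using (hηt t).pow 2
    simpa using h1
  have hηs : Tendsto (fun m => Real.sqrt (∫ t, η m t ^ 2)) atTop (𝓝 0) := by
    have := (Real.continuous_sqrt.tendsto 0).comp hη2
    rw [Real.sqrt_zero] at this
    exact this
  -- the integral of `|p|`
  have hpa : ∀ m, ∫ t, |p m t| ≤ Real.sqrt T * ((eLpNorm (d m) 2 volume).toReal + K) := by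
    intro m
    have h1 : ∫ t, |p m t| = ∫ t in Icc 0 T, |p m t| := by
      rw [setIntegral_eq_integral_of_forall_compl_eq_zero]
      intro t ht
      rw [hp0 m t fun h => ht ⟨by linarith [h.1], by linarith [h.2]⟩, abs_zero]
    have h2 : MemLp (fun t => |p m t|) 2 volume := (hpm m).norm
    rw [h1]
    have h4 : volume (Icc 0 T) ≤ ENNReal.ofReal T := by
      rw [Real.volume_Icc, sub_zero]
    refine (le_abs_self _).trans ((abs_setIntegral_le hT.le h4 h2).trans ?_)
    have h3 : eLpNorm (fun t => |p m t|) 2 volume = eLpNorm (p m) 2 volume :=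
      eLpNorm_congr_norm_ae (Eventually.of_forall fun t => by simp)
    rw [h3]
    exact mul_le_mul_of_nonneg_left (hpn m) (Real.sqrt_nonneg _)
  -- the energy identity
  have hen2 : ∀ m, ∫ t in Ia, g m t ^ 2 = (∫ t, p m t * g m t) - ∫ t, d m t * g m t := by
    intro m
    have i1 : Integrable (fun t => p m t * g m t) := (hpm m).integrable_mul (hg m)
    have i2 : Integrable (fun t => d m t * g m t) := (hdm m).integrable_mul (hg m)
    rw [← integral_sub i1 i2, ← integral_indicator hIam]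
    refine integral_congr_ae (Eventually.of_forall fun t => ?_)
    by_cases ht : t ∈ Ia
    · simp only [hd, indicator_of_mem ht]; ring
    · simp only [hd, indicator_of_notMem ht]; ring
  refine tendsto_order.2 ⟨fun c hc => Eventually.of_forall fun m => hc.trans_le
    (integral_nonneg fun t => sq_nonneg _), fun ε' hε' => ?_⟩
  have hB : 0 < Real.sqrt T * (1 + K) + 1 := by positivity
  obtain ⟨C, m0, hC⟩ := hb (ε' / (3 * (Real.sqrt T * (1 + K) + 1))) (by positivity)
  have t1 : ∀ᶠ m in atTop, C * Real.sqrt (∫ t, η m t ^ 2) < ε' / 3 := by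
    have := hηs.const_mul C
    rw [mul_zero] at this
    exact (tendsto_order.1 this).2 _ (by positivity)
  have t2 : ∀ᶠ m in atTop, (eLpNorm (d m) 2 volume).toReal * K < ε' / 3 := by
    have := hd0.mul_const K
    rw [zero_mul] at this
    exact (tendsto_order.1 this).2 _ (by positivity)
  filter_upwards [t1, t2, hd1, eventually_ge_atTop m0] with m h1 h2 h3 h4
  have h5 := hC m h4 (η m) (hprim m).1
  rw [hηd] at h5
  have h6 : ε' / (3 * (Real.sqrt T * (1 + K) + 1)) * ∫ t, |p m t| ≤ ε' / 3 := by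
    have h7 : ∫ t, |p m t| ≤ Real.sqrt T * (1 + K) + 1 := by
      refine (hpa m).trans ?_
      have := mul_le_mul_of_nonneg_left (add_le_add h3 (le_refl K)) (Real.sqrt_nonneg T)
      linarith
    calc ε' / (3 * (Real.sqrt T * (1 + K) + 1)) * ∫ t, |p m t|
        ≤ ε' / (3 * (Real.sqrt T * (1 + K) + 1)) * (Real.sqrt T * (1 + K) + 1) :=
          mul_le_mul_of_nonneg_left h7 (by positivity)
      _ = ε' / 3 := by field_simp
  have h8 := abs_integral_mul_le (hdm m) (hg m)
  have h9 : (eLpNorm (d m) 2 volume).toReal * (eLpNorm (g m) 2 volume).toReal ≤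
      (eLpNorm (d m) 2 volume).toReal * K :=
    mul_le_mul_of_nonneg_left (hgK m) ENNReal.toReal_nonneg
  rw [hen2]
  have h10 := le_abs_self (∫ t, p m t * g m t)
  have h11 := neg_abs_le (∫ t, d m t * g m t)
  linarith

/-- scalar time compactness -/
theorem scalar_compact {T : ℝ} {g : ℕ → ℝ → ℝ} {K : ℝ}
    (hg : ∀ m, MemLp (g m) 2 volume) (hgK : ∀ m, (eLpNorm (g m) 2 volume).toReal ≤ K)
    (hw : ∀ A : Set ℝ, MeasurableSet A → volume A < ⊤ →
      Tendsto (fun m => ∫ t in A, g m t) atTop (𝓝 0))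
    (hb : ∀ ε : ℝ, 0 < ε → ∃ (C : ℝ) (m0 : ℕ), ∀ m ≥ m0, ∀ η, IsTime 0 T η →
      |∫ t, deriv η t * g m t| ≤ C * Real.sqrt (∫ t, η t ^ 2) + ε * ∫ t, |deriv η t|)
    (hc : ∀ ε : ℝ≥0∞, 0 < ε → ∃ a : ℝ, 0 < a ∧ a < T / 2 ∧
      ∀ m, ∫⁻ t in (Ioo a (T - a))ᶜ, ‖g m t‖ₑ ^ 2 ≤ ε) :
    Tendsto (fun m => ∫⁻ t, ‖g m t‖ₑ ^ 2) atTop (𝓝 0) := by
  rw [ENNReal.tendsto_nhds_zero]
  intro ε hε
  obtain ⟨a, ha, haT, hac⟩ := hc (ε / 2) (ENNReal.half_pos hε.ne')
  have h1 := scalar_core ha haT hg hgK hw hb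
  have h2 : ∀ m, ∫⁻ t in Ioo a (T - a), ‖g m t‖ₑ ^ 2 =
      ENNReal.ofReal (∫ t in Ioo a (T - a), g m t ^ 2) := by
    intro m
    have h3 : Integrable (fun t => g m t ^ 2) (volume.restrict (Ioo a (T - a))) :=
      ((hg m).restrict _).integrable_sq
    rw [ofReal_integral_eq_lintegral_ofReal h3 (Eventually.of_forall fun t => sq_nonneg _)]
    refine lintegral_congr fun t => ?_
    rw [← sq_abs, ENNReal.ofReal_pow (abs_nonneg _), ← Real.norm_eq_abs, ofReal_norm]
  have h3 : Tendsto (fun m => ∫⁻ t in Ioo a (T - a), ‖g m t‖ₑ ^ 2) atTop (𝓝 0) := by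
    simp only [h2]
    have := ENNReal.tendsto_ofReal h1
    rwa [ENNReal.ofReal_zero] at this
  filter_upwards [ENNReal.tendsto_nhds_zero.1 h3 (ε / 2) (ENNReal.half_pos hε.ne')] with m hm
  rw [← lintegral_add_compl _ (measurableSet_Ioo (a := a) (b := T - a)), ← ENNReal.add_halves ε]
  exact add_le_add hm (hac m)

end Pool.Agent.Helper41.Jef
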