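import Pool.Agent.Helper41.Jef.Scalar
import Pool.Agent.Helper41.Jef.Avg
import Pool.Agent.Helper41.Jef.Dens

/-! # Strong compactness of the velocities (module M8 for `MP_6e2b46_an`) -/

open MeasureTheory Set Filter Topology
open scoped ENNReal NNReal ContDiff

namespace Pool.Agent.Helper41.Jef

open Pool.Agent.Helper42.Jef

variable {n : ℕ}

theorem tendsto_of_sq {x : ℕ → ℝ≥0∞} (h : Tendsto (fun m => x m ^ 2) atTop (𝓝 0)) :
    Tendsto x atTop (𝓝 0) := by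
  have h1 := (ENNReal.continuous_rpow_const (y := (1 / 2 : ℝ))).tendsto 0 |>.comp h
  have h2 : (fun x : ℝ≥0∞ => x ^ (1 / 2 : ℝ)) ∘ (fun m => x m ^ 2) = x := by
    funext m
    show (x m ^ 2) ^ (1 / 2 : ℝ) = x m
    rw [← ENNReal.rpow_natCast, ← ENNReal.rpow_mul]
    norm_num
  rw [h2] at h1
  simpa using h1

/-- the pairing with a test field tends to zero -/
theorem pr_test_tendsto {Ω : Set (Eu n)} {T : ℝ} {w : ℕ → ST n → Eu n}
    (hw : ∀ m, StronglyMeasurable (w m)) (hw2 : ∀ m, MemLp (w m) 2 volume)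
    {K : ℝ≥0∞} (hKt : K ≠ ⊤) (hK : ∀ m, eLpNorm (w m) 2 volume ≤ K)
    (hweak : ∀ g : ST n → Eu n, MemLp g 2 volume →
      Tendsto (fun m => ∫ z, inner ℝ (w m z) (g z)) atTop (𝓝 0))
    (hslab : ∀ ε : ℝ≥0∞, 0 < ε → ∃ a : ℝ, 0 < a ∧ a < T / 2 ∧
      ∀ m, ∫⁻ z in (Ioo a (T - a))ᶜ ×ˢ (univ : Set (Eu n)), ‖w m z‖ₑ ^ 2 ≤ ε)
    {φ : Eu n → Eu n} (hφ : IsVT Ω φ)
    (htc : ∀ ε : ℝ, 0 < ε → ∃ (C : ℝ) (m0 : ℕ), ∀ m ≥ m0, ∀ η, IsTime 0 T η →
      |∫ z : ST n, deriv η z.1 * inner ℝ (w m z) (φ z.2)| ≤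
        C * Real.sqrt (∫ t, η t ^ 2) + ε * ∫ t, |deriv η t|) :
    Tendsto (fun m => eLpNorm (pr (w m) φ) 2 volume) atTop (𝓝 0) := by
  have hφm := vt_memLp hφ
  have hg : ∀ m, MemLp (pr (w m) φ) 2 volume := fun m => pr_memLp (hw m) (hw2 m) hφm
  have hle : ∀ m, eLpNorm (pr (w m) φ) 2 volume ≤ K * eLpNorm φ 2 volume := fun m =>
    (pr_le (hw m) hφm.1).trans (mul_le_mul' (hK m) le_rfl)
  have hgK : ∀ m, (eLpNorm (pr (w m) φ) 2 volume).toReal ≤ (K * eLpNorm φ 2 volume).toReal :=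
    fun m => ENNReal.toReal_mono (ENNReal.mul_ne_top hKt hφm.2.ne) (hle m)
  refine tendsto_of_sq ?_
  simp only [eLpNorm_two_sq]
  refine scalar_compact (T := T) hg hgK ?_ ?_ ?_
  · intro A hA hAf
    have h1 : MemLp (A.indicator fun _ => (1:ℝ)) 2 (volume : Measure ℝ) :=
      memLp_indicator_const 2 hA 1 (Or.inr hAf.ne)
    have h2 := hweak _ (memLp_tensor h1 hφm)
    refine h2.congr fun m => ?_
    have h3 : ∫ z : ST n, inner ℝ (w m z) (A.indicator (fun _ => (1:ℝ)) z.1 • φ z.2) =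
        ∫ z : ST n, A.indicator (fun _ => (1:ℝ)) z.1 * inner ℝ (w m z) (φ z.2) := by
      refine integral_congr_ae (Eventually.of_forall fun z => ?_)
      simp only [inner_smul_right]
    rw [h3, pr_fubini (hw2 m) h1 hφm, ← integral_indicator hA]
    refine integral_congr_ae (Eventually.of_forall fun t => ?_)
    by_cases ht : t ∈ A
    · simp [ht]
    · simp [ht]
  · intro ε hε
    obtain ⟨C, m0, hC⟩ := htc ε hε
    refine ⟨C, m0, fun m hm η hη => ?_⟩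
    have h1 : MemLp (deriv η) 2 volume :=
      (hη.smooth.continuous_deriv (by simp)).memLp_of_hasCompactSupport hη.cpt.deriv
    rw [← pr_fubini (hw2 m) h1 hφm]
    exact hC m hm η hη
  · intro ε hε
    set Φ := ∫⁻ x, ‖φ x‖ₑ ^ 2 with hΦ
    have hΦt : Φ ≠ ⊤ := by
      rw [hΦ, ← eLpNorm_two_sq]
      exact ENNReal.pow_ne_top hφm.2.ne
    have hΦ1 : Φ + 1 ≠ ⊤ := ENNReal.add_ne_top.2 ⟨hΦt, by norm_num⟩
    have hΦ0 : Φ + 1 ≠ 0 := by simp
    obtain ⟨a, ha, haT, hs⟩ := hslab (ε / (Φ + 1)) (ENNReal.div_pos hε.ne' hΦ1)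
    refine ⟨a, ha, haT, fun m => ?_⟩
    calc ∫⁻ t in (Ioo a (T - a))ᶜ, ‖pr (w m) φ t‖ₑ ^ 2
        ≤ (∫⁻ z in (Ioo a (T - a))ᶜ ×ˢ (univ : Set (Eu n)), ‖w m z‖ₑ ^ 2) * Φ :=
          pr_slab_le (hw m) hφm.1 _
      _ ≤ ε / (Φ + 1) * (Φ + 1) := mul_le_mul' (hs m) le_self_add
      _ = ε := ENNReal.div_mul_cancel hΦ0 hΦ1

/-- the core statement for a normalised sequence -/
theorem strong_core {Ω : Set (Eu n)} (hΩb : Bornology.IsBounded Ω) {T : ℝ}
    {w : ℕ → ST n → Eu n} {W : ℕ → ST n → Mt n} (hV : ∀ m, IsVel Ω T (w m) (W m))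
    (hw : ∀ m, StronglyMeasurable (w m))
    (hw0 : ∀ m, ∀ z : ST n, z ∉ Ioo 0 T ×ˢ Ω → w m z = 0)
    {K K' : ℝ≥0∞} (hKt : K ≠ ⊤) (hK : ∀ m, eLpNorm (w m) 2 volume ≤ K)
    (hKt' : K' ≠ ⊤) (hK' : ∀ m, eLpNorm (W m) 2 volume ≤ K')
    (hweak : ∀ g : ST n → Eu n, MemLp g 2 volume →
      Tendsto (fun m => ∫ z, inner ℝ (w m z) (g z)) atTop (𝓝 0))
    (hslab : ∀ ε : ℝ≥0∞, 0 < ε → ∃ a : ℝ, 0 < a ∧ a < T / 2 ∧
      ∀ m, ∫⁻ z in (Ioo a (T - a))ᶜ ×ˢ (univ : Set (Eu n)), ‖w m z‖ₑ ^ 2 ≤ ε)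
    (htc : ∀ φ, IsVT Ω φ → ∀ ε : ℝ, 0 < ε → ∃ (C : ℝ) (m0 : ℕ), ∀ m ≥ m0, ∀ η, IsTime 0 T η →
      |∫ z : ST n, deriv η z.1 * inner ℝ (w m z) (φ z.2)| ≤
        C * Real.sqrt (∫ t, η t ^ 2) + ε * ∫ t, |deriv η t|) :
    Tendsto (fun m => eLpNorm (w m) 2 volume) atTop (𝓝 0) := by
  have hw2 : ∀ m, MemLp (w m) 2 volume := fun m => (hV m).memv
  have hp : ∀ z : Eu n → Eu n, MemLp z 2 volume →
      Tendsto (fun m => eLpNorm (pr (w m) z) 2 volume) atTop (𝓝 0) := fun z hz =>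
    pr_tendsto hV hw hKt hK (fun φ hφ =>
      pr_test_tendsto hw hw2 hKt hK hweak hslab hφ (htc φ hφ)) hz
  obtain ⟨R, hR⟩ := hΩb.subset_ball 0
  have h0 : ∀ m, ∀ z : ST n, R ≤ ‖z.2‖ → w m z = 0 := by
    intro m z hz
    refine hw0 m z fun h => ?_
    have := hR h.2
    rw [mem_ball_zero_iff] at this
    linarith
  rw [ENNReal.tendsto_nhds_zero]
  intro ε hε
  obtain ⟨δ, hδ, hδe⟩ : ∃ δ : ℝ, 0 < δ ∧ ENNReal.ofReal δ * K' ≤ ε / 2 := by
    have h1 : Tendsto (fun k : ℕ => ENNReal.ofReal (1 / ((k : ℝ) + 1)) * K') atTop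
        (𝓝 (0 * K')) := by
      refine ENNReal.Tendsto.mul_const ?_ (Or.inr hKt')
      have := ENNReal.tendsto_ofReal tendsto_one_div_add_atTop_nhds_zero_nat
      rwa [ENNReal.ofReal_zero] at this
    rw [zero_mul, ENNReal.tendsto_nhds_zero] at h1
    obtain ⟨k, hk⟩ := (h1 (ε / 2) (ENNReal.half_pos hε.ne')).exists
    exact ⟨_, by positivity, hk⟩
  set c := volume (Metric.ball (0 : Eu n) δ) with hc
  have hct : c ≠ ⊤ := measure_ball_lt_top.ne
  have hc0 : c ≠ 0 := (Metric.measure_ball_pos volume 0 hδ).ne'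
  have h1 : Tendsto (fun m => eLpNorm (av δ (w m)) 2 volume) atTop (𝓝 0) := by
    refine tendsto_of_sq ?_
    simp only [eLpNorm_two_sq]
    exact av_tendsto hw hw2 hKt hK h0 hp δ
  have h2 : Tendsto (fun m => c⁻¹ * eLpNorm (av δ (w m)) 2 volume) atTop (𝓝 0) := by
    have := ENNReal.Tendsto.const_mul (a := c⁻¹) h1 (Or.inr (ENNReal.inv_ne_top.2 hc0))
    rwa [mul_zero] at this
  filter_upwards [ENNReal.tendsto_nhds_zero.1 h2 (ε / 2) (ENNReal.half_pos hε.ne')] with m hm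
  have h3 : eLpNorm (fun z => c.toReal • w m z - av δ (w m) z) 2 volume ≤
      c * (ENNReal.ofReal δ * K') :=
    av_diff (hw m) (hw2 m) fun y => (trans_vel (hV m) y).trans (mul_le_mul' le_rfl (hK' m))
  have h4 : c * eLpNorm (w m) 2 volume ≤
      c * (ENNReal.ofReal δ * K') + eLpNorm (av δ (w m)) 2 volume := by
    have h5 : eLpNorm (fun z => c.toReal • w m z) 2 volume = c * eLpNorm (w m) 2 volume := by
      have h6 : eLpNorm (fun z => c.toReal • w m z) 2 volume =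
          ‖c.toReal‖ₑ * eLpNorm (w m) 2 volume := eLpNorm_const_smul c.toReal (w m) 2 volume
      rw [h6, Real.enorm_of_nonneg ENNReal.toReal_nonneg, ENNReal.ofReal_toReal hct]
    have h7 : (fun z => c.toReal • w m z) =
        (fun z => c.toReal • w m z - av δ (w m) z) + av δ (w m) := by
      funext z
      simp only [Pi.add_apply, sub_add_cancel]
    rw [← h5, h7]
    refine (eLpNorm_add_le ?_ (av_sm δ (hw m)).aestronglyMeasurable (by norm_num)).trans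
      (add_le_add h3 le_rfl)
    exact (((hw m).const_smul c.toReal).sub (av_sm δ (hw m))).aestronglyMeasurable
  calc eLpNorm (w m) 2 volume = c⁻¹ * (c * eLpNorm (w m) 2 volume) := by
        rw [← mul_assoc, ENNReal.inv_mul_cancel hc0 hct, one_mul]
    _ ≤ c⁻¹ * (c * (ENNReal.ofReal δ * K') + eLpNorm (av δ (w m)) 2 volume) :=
        mul_le_mul' le_rfl h4
    _ = ENNReal.ofReal δ * K' + c⁻¹ * eLpNorm (av δ (w m)) 2 volume := by
        rw [mul_add, ← mul_assoc, ENNReal.inv_mul_cancel hc0 hct, one_mul]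
    _ ≤ ε / 2 + ε / 2 := add_le_add hδe hm
    _ = ε := ENNReal.add_halves ε

/-- **strong compactness of the velocities** (module M8) -/
theorem strong_conv {Ω : Set (Eu n)} (hΩ : IsOpen Ω) (hΩb : Bornology.IsBounded Ω)
    {T : ℝ} (hT : 0 < T) {vs : ℕ → ST n → Eu n} {Gs : ℕ → ST n → Mt n}
    {v : ST n → Eu n} {G : ST n → Mt n} (hv : ∀ m, IsVel Ω T (vs m) (Gs m)) (hvl : IsVel Ω T v G)
    (M : ℝ) (hG : ∀ m, eLpNorm (Gs m) 2 volume ≤ ENNReal.ofReal M)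
    (hw : WC volume vs v)
    (hM : ∀ m, ∀ I : Set ℝ, MeasurableSet I →
      ∫⁻ z in I ×ˢ (univ : Set (Eu n)), ‖vs m z‖ₑ ^ 2 ≤ ENNReal.ofReal M * volume I)
    (hTC : ∀ φ, IsVT Ω φ → ∀ ε : ℝ, 0 < ε → ∃ (C : ℝ) (m0 : ℕ), ∀ m ≥ m0, ∀ η, IsTime 0 T η →
      |∫ z : ST n, deriv η z.1 * inner ℝ (vs m z) (φ z.2)| ≤
        C * Real.sqrt (∫ t, η t ^ 2) + ε * ∫ t, |deriv η t|) :
    Tendsto (fun m => eLpNorm (fun z => vs m z - v z) 2 volume) atTop (𝓝 0) := by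
  set S : Set (ST n) := Ioo 0 T ×ˢ Ω with hS
  have hSm : MeasurableSet S := measurableSet_Ioo.prod hΩ.measurableSet
  have hV0 : ∀ m, IsVel Ω T (fun z => vs m z - v z) (fun z => Gs m z - G z) := fun m =>
    vel_sub (hv m) hvl
  -- strongly measurable representatives supported in `S`
  set w : ℕ → ST n → Eu n := fun m => S.indicator ((hV0 m).memv.1.mk _) with hwdef
  have hwsm : ∀ m, StronglyMeasurable (w m) := fun m =>
    (hV0 m).memv.1.stronglyMeasurable_mk.indicator hSm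
  have hwae : ∀ m, (fun z => vs m z - v z) =ᵐ[volume] w m := by
    intro m
    filter_upwards [vel_zero hΩ (hV0 m), (hV0 m).memv.1.ae_eq_mk] with z h1 h2
    rw [h1]
    simp only [hwdef]
    by_cases hz : z ∈ S
    · rw [indicator_of_mem hz, indicator_of_mem hz]; exact h2
    · rw [indicator_of_notMem hz, indicator_of_notMem hz]
  have hV : ∀ m, IsVel Ω T (w m) (fun z => Gs m z - G z) := fun m => vel_congr (hV0 m) (hwae m)
  have hw0 : ∀ m, ∀ z : ST n, z ∉ S → w m z = 0 := fun m z hz => indicator_of_notMem hz _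
  obtain ⟨C0, hC0⟩ := hw.bdd
  have hK : ∀ m, eLpNorm (w m) 2 volume ≤ ENNReal.ofReal C0 + eLpNorm v 2 volume := by
    intro m
    rw [← eLpNorm_congr_ae (hwae m)]
    exact (eLpNorm_sub_le (hw.mem m).1 hw.memU.1 (by norm_num)).trans
      (add_le_add (hC0 m) le_rfl)
  have hKt : ENNReal.ofReal C0 + eLpNorm v 2 volume ≠ ⊤ :=
    ENNReal.add_ne_top.2 ⟨ENNReal.ofReal_ne_top, hw.memU.2.ne⟩
  have hK' : ∀ m, eLpNorm (fun z => Gs m z - G z) 2 volume ≤
      ENNReal.ofReal M + eLpNorm G 2 volume := fun m =>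
    (eLpNorm_sub_le (hv m).memG.1 hvl.memG.1 (by norm_num)).trans (add_le_add (hG m) le_rfl)
  have hKt' : ENNReal.ofReal M + eLpNorm G 2 volume ≠ ⊤ :=
    ENNReal.add_ne_top.2 ⟨ENNReal.ofReal_ne_top, hvl.memG.2.ne⟩
  -- pairings of the representatives
  have hpair : ∀ m, ∀ g : ST n → Eu n, MemLp g 2 volume → ∫ z, inner ℝ (w m z) (g z) =
      (∫ z, inner ℝ (vs m z) (g z)) - ∫ z, inner ℝ (v z) (g z) := by
    intro m g hg
    rw [← integral_sub (inner_integrable (hw.mem m) hg) (inner_integrable hw.memU hg)]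
    refine integral_congr_ae ?_
    filter_upwards [hwae m] with z hz
    rw [← hz, inner_sub_left]
  have hweak : ∀ g : ST n → Eu n, MemLp g 2 volume →
      Tendsto (fun m => ∫ z, inner ℝ (w m z) (g z)) atTop (𝓝 0) := by
    intro g hg
    have h1 := (hw.conv g hg).sub_const (∫ z, inner ℝ (v z) (g z))
    rw [sub_self] at h1
    exact h1.congr fun m => (hpair m g hg).symm
  -- time regularity
  have htc : ∀ φ, IsVT Ω φ → ∀ ε : ℝ, 0 < ε → ∃ (C : ℝ) (m0 : ℕ), ∀ m ≥ m0, ∀ η, IsTime 0 T η →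
      |∫ z : ST n, deriv η z.1 * inner ℝ (w m z) (φ z.2)| ≤
        C * Real.sqrt (∫ t, η t ^ 2) + ε * ∫ t, |deriv η t| := by
    intro φ hφ ε hε
    obtain ⟨C, m0, hC⟩ := hTC φ hφ (ε / 2) (by positivity)
    refine ⟨2 * C, m0, fun m hm η hη => ?_⟩
    have h1 : MemLp (deriv η) 2 volume :=
      (hη.smooth.continuous_deriv (by simp)).memLp_of_hasCompactSupport hη.cpt.deriv
    have hg := memLp_tensor h1 (vt_memLp hφ)
    have e1 : ∀ u : ST n → Eu n, ∫ z : ST n, deriv η z.1 * inner ℝ (u z) (φ z.2) =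
        ∫ z : ST n, inner ℝ (u z) (deriv η z.1 • φ z.2) := by
      intro u
      refine integral_congr_ae (Eventually.of_forall fun z => ?_)
      simp only [inner_smul_right]
    have h2 : |∫ z : ST n, deriv η z.1 * inner ℝ (v z) (φ z.2)| ≤
        C * Real.sqrt (∫ t, η t ^ 2) + ε / 2 * ∫ t, |deriv η t| := by
      have h3 := (hw.conv _ hg).abs
      rw [e1]
      refine le_of_tendsto h3 ?_
      filter_upwards [eventually_ge_atTop m0] with k hk
      rw [← e1]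
      exact hC k hk η hη
    have h3 := hC m hm η hη
    rw [e1, hpair m _ hg, ← e1, ← e1]
    have h4 := abs_sub (∫ z : ST n, deriv η z.1 * inner ℝ (vs m z) (φ z.2))
      (∫ z : ST n, deriv η z.1 * inner ℝ (v z) (φ z.2))
    linarith
  -- the layers near `t = 0` and `t = T`
  have hslab : ∀ ε : ℝ≥0∞, 0 < ε → ∃ a : ℝ, 0 < a ∧ a < T / 2 ∧
      ∀ m, ∫⁻ z in (Ioo a (T - a))ᶜ ×ˢ (univ : Set (Eu n)), ‖w m z‖ₑ ^ 2 ≤ ε := by
    intro ε hε
    have hv2 : ∫⁻ z, ‖v z‖ₑ ^ 2 ≠ ⊤ := by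
      rw [← eLpNorm_two_sq]; exact ENNReal.pow_ne_top hw.memU.2.ne
    have hε4 : ε / 4 ≠ 0 := (ENNReal.div_pos hε.ne' (by norm_num)).ne'
    obtain ⟨δ, hδ, hδv⟩ := exists_pos_setLIntegral_lt_of_measure_lt hv2 hε4
    have hΩf : volume Ω ≠ ⊤ := hΩb.measure_lt_top.ne
    -- choose `a`
    obtain ⟨a, ha, haT, ha1, ha2⟩ : ∃ a : ℝ, 0 < a ∧ a < T / 2 ∧
        ENNReal.ofReal (2 * a) * volume Ω < δ ∧
        ENNReal.ofReal M * ENNReal.ofReal (2 * a) ≤ ε / 4 := by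
      have t0 : Tendsto (fun a : ℝ => ENNReal.ofReal (2 * a)) (𝓝[>] 0) (𝓝 0) := by
        have h1 : Tendsto (fun a : ℝ => ENNReal.ofReal (2 * a)) (𝓝 0) (𝓝 (ENNReal.ofReal (2 * 0))) :=
          (ENNReal.continuous_ofReal.comp (continuous_const.mul continuous_id)).tendsto 0
        rw [mul_zero, ENNReal.ofReal_zero] at h1
        exact h1.mono_left nhdsWithin_le_nhds
      have t1 : Tendsto (fun a : ℝ => ENNReal.ofReal (2 * a) * volume Ω) (𝓝[>] 0) (𝓝 0) := by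
        have := ENNReal.Tendsto.mul_const t0 (Or.inr hΩf)
        rwa [zero_mul] at this
      have t2 : Tendsto (fun a : ℝ => ENNReal.ofReal M * ENNReal.ofReal (2 * a)) (𝓝[>] 0)
          (𝓝 0) := by
        have := ENNReal.Tendsto.const_mul (a := ENNReal.ofReal M) t0 (Or.inr ENNReal.ofReal_ne_top)
        rwa [mul_zero] at this
      have t3 : ∀ᶠ a : ℝ in 𝓝[>] 0, a < T / 2 :=
        nhdsWithin_le_nhds (Iio_mem_nhds (by linarith : (0:ℝ) < T / 2))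
      have t4 : ∀ᶠ a : ℝ in 𝓝[>] 0, 0 < a := self_mem_nhdsWithin
      obtain ⟨a, h1, h2, h3, h4⟩ := ((t4.and (t3.and (((tendsto_order.1 t1).2 δ hδ).and
        ((tendsto_order.1 t2).2 (ε / 4) (pos_iff_ne_zero.2 hε4)))))).exists
      exact ⟨a, h1, h2, h3, h4.le⟩
    refine ⟨a, ha, haT, fun m => ?_⟩
    set J : Set ℝ := Ioc 0 a ∪ Ico (T - a) T with hJ
    have hJm : MeasurableSet J := measurableSet_Ioc.union measurableSet_Ico
    have hJv : volume J ≤ ENNReal.ofReal (2 * a) := by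
      refine (measure_union_le _ _).trans ?_
      rw [Real.volume_Ioc, Real.volume_Ico, ← ENNReal.ofReal_add (by linarith) (by linarith)]
      exact ENNReal.ofReal_le_ofReal (by linarith)
    have hJΩ : volume (J ×ˢ Ω) < δ := by
      rw [Measure.volume_eq_prod, Measure.prod_prod]
      exact (mul_le_mul' hJv le_rfl).trans_lt ha1
    -- only the part in `J × Ω` matters
    have h1 : ∫⁻ z in (Ioo a (T - a))ᶜ ×ˢ (univ : Set (Eu n)), ‖w m z‖ₑ ^ 2 ≤
        ∫⁻ z in J ×ˢ Ω, ‖w m z‖ₑ ^ 2 := by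
      rw [← lintegral_indicator (measurableSet_Ioo.compl.prod MeasurableSet.univ),
        ← lintegral_indicator (hJm.prod hΩ.measurableSet)]
      refine lintegral_mono fun z => ?_
      by_cases hz : z ∈ J ×ˢ Ω
      · rw [indicator_of_mem hz]
        exact indicator_le_self _ _ _
      · rw [indicator_of_notMem hz]
        by_cases hz1 : z ∈ (Ioo a (T - a))ᶜ ×ˢ (univ : Set (Eu n))
        · rw [indicator_of_mem hz1]
          have hz2 : z ∉ S := by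
            intro h
            refine hz ⟨?_, h.2⟩
            have h3 : z.1 ∉ Ioo a (T - a) := hz1.1
            by_cases h4 : z.1 ≤ a
            · exact Or.inl ⟨h.1.1, h4⟩
            · refine Or.inr ⟨?_, h.1.2⟩
              by_contra h5
              exact h3 ⟨not_le.1 h4, not_le.1 h5⟩
          rw [hw0 m z hz2]; simp
        · rw [indicator_of_notMem hz1]
    have h2 : ∫⁻ z in J ×ˢ Ω, ‖w m z‖ₑ ^ 2 ≤
        2 * (∫⁻ z in J ×ˢ Ω, ‖vs m z‖ₑ ^ 2) + 2 * ∫⁻ z in J ×ˢ Ω, ‖v z‖ₑ ^ 2 := by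
      have h3 : ∀ᵐ z ∂(volume.restrict (J ×ˢ Ω)), ‖w m z‖ₑ ^ 2 ≤
          2 * ‖vs m z‖ₑ ^ 2 + 2 * ‖v z‖ₑ ^ 2 := by
        filter_upwards [ae_restrict_of_ae (hwae m)] with z hz
        rw [← hz]
        have h4 : ‖vs m z - v z‖ ^ 2 ≤ 2 * ‖vs m z‖ ^ 2 + 2 * ‖v z‖ ^ 2 := by
          have h5 := norm_sub_le (vs m z) (v z)
          have h6 : ‖vs m z - v z‖ ^ 2 ≤ (‖vs m z‖ + ‖v z‖) ^ 2 :=
            pow_le_pow_left₀ (norm_nonneg _) h5 2
          nlinarith [sq_nonneg (‖vs m z‖ - ‖v z‖)]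
        have h5 := ENNReal.ofReal_le_ofReal h4
        rw [ENNReal.ofReal_add (by positivity) (by positivity),
          ENNReal.ofReal_mul (by norm_num), ENNReal.ofReal_mul (by norm_num),
          ENNReal.ofReal_pow (norm_nonneg _), ENNReal.ofReal_pow (norm_nonneg _),
          ENNReal.ofReal_pow (norm_nonneg _), ofReal_norm, ofReal_norm, ofReal_norm] at h5
        simpa using h5
      refine (lintegral_mono_ae h3).trans (le_of_eq ?_)
      rw [lintegral_add_left', lintegral_const_mul'', lintegral_const_mul'']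
      · exact (hw.memU.1.restrict.enorm.pow_const 2)
      · exact ((hw.mem m).1.restrict.enorm.pow_const 2)
      · exact ((hw.mem m).1.restrict.enorm.pow_const 2).const_mul _
    have h3 : ∫⁻ z in J ×ˢ Ω, ‖vs m z‖ₑ ^ 2 ≤ ε / 4 := by
      have h4 : ∫⁻ z in J ×ˢ Ω, ‖vs m z‖ₑ ^ 2 ≤
          ∫⁻ z in J ×ˢ (univ : Set (Eu n)), ‖vs m z‖ₑ ^ 2 :=
        lintegral_mono_set (prod_mono subset_rfl (subset_univ _))
      exact h4.trans ((hM m J hJm).trans ((mul_le_mul' le_rfl hJv).trans ha2))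
    have h4 : ∫⁻ z in J ×ˢ Ω, ‖v z‖ₑ ^ 2 ≤ ε / 4 := (hδv _ hJΩ).le
    calc ∫⁻ z in (Ioo a (T - a))ᶜ ×ˢ (univ : Set (Eu n)), ‖w m z‖ₑ ^ 2
        ≤ 2 * (∫⁻ z in J ×ˢ Ω, ‖vs m z‖ₑ ^ 2) + 2 * ∫⁻ z in J ×ˢ Ω, ‖v z‖ₑ ^ 2 := h1.trans h2
      _ ≤ 2 * (ε / 4) + 2 * (ε / 4) := add_le_add (mul_le_mul' le_rfl h3) (mul_le_mul' le_rfl h4)
      _ = ε := by
          rw [← two_mul, ← mul_assoc]
          norm_num
          exact ENNReal.mul_div_cancel (by norm_num) (by norm_num)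
  have hfin := strong_core hΩb hV hwsm hw0 hKt hK hKt' hK' hweak hslab htc
  refine hfin.congr fun m => ?_
  exact (eLpNorm_congr_ae (hwae m)).symm

end Pool.Agent.Helper41.Jef
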