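import Pool.Agent.Helper41.Jef.Elem

/-! # Translation estimate for velocity fields -/

open MeasureTheory Set Filter Topology
open scoped ENNReal NNReal ContDiff

namespace Pool.Agent.Helper41.Jef

open Pool.Agent.Helper42.Jef

variable {n : ℕ}

theorem fderiv_norm_le (φ : Eu n → Eu n) (x h : Eu n) :
    ‖fderiv ℝ φ x h‖ ≤ ‖h‖ * ‖grad φ x‖ := by
  have h1 : ‖fderiv ℝ φ x h‖ ^ 2 ≤ (‖h‖ * ‖grad φ x‖) ^ 2 := by
    have e1 : h = ∑ j, h j • bv j := by
      ext i
      simp [bv, Finset.sum_apply, Pi.single_apply]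
    have e2 : ∀ i, (fderiv ℝ φ x h) i = ∑ j, h j * (grad φ x) (i, j) := by
      intro i
      conv_lhs => rw [e1]
      rw [map_sum]
      simp [grad]
    rw [mul_pow, EuclideanSpace.real_norm_sq_eq, EuclideanSpace.real_norm_sq_eq,
      EuclideanSpace.real_norm_sq_eq, Fintype.sum_prod_type, Finset.mul_sum]
    refine Finset.sum_le_sum fun i _ => ?_
    rw [e2]
    exact Finset.sum_mul_sq_le_sq_mul_sq _ _ _
  exact (pow_le_pow_iff_left₀ (norm_nonneg _) (by positivity) (by norm_num)).1 h1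

theorem trans_smooth {φ : Eu n → Eu n} (hφ : ContDiff ℝ ∞ φ) (h : Eu n) :
    ∫⁻ x, ‖φ (x + h) - φ x‖ₑ ^ 2 ≤ ‖h‖ₑ ^ 2 * ∫⁻ x, ‖grad φ x‖ₑ ^ 2 := by
  have h1 : ∀ x, ‖φ (x + h) - φ x‖ₑ ^ 2 ≤
      ∫⁻ s in Ioc (0:ℝ) 1, ‖h‖ₑ ^ 2 * ‖grad φ (x + s • h)‖ₑ ^ 2 := by
    intro x
    have hd : ∀ s : ℝ, HasDerivAt (fun s : ℝ => φ (x + s • h)) (fderiv ℝ φ (x + s • h) h) s := by
      intro s
      have h2 : HasDerivAt (fun s : ℝ => x + s • h) h s := by
        simpa using ((hasDerivAt_id s).smul_const h).const_add x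
      have h3 : HasFDerivAt φ (fderiv ℝ φ (x + s • h)) (x + s • h) :=
        ((hφ.differentiable (by simp)) _).hasFDerivAt
      exact h3.comp_hasDerivAt s h2
    have hc : Continuous fun s : ℝ => fderiv ℝ φ (x + s • h) h := by
      have h2 : Continuous fun s : ℝ => fderiv ℝ φ (x + s • h) :=
        (hφ.continuous_fderiv (by simp)).comp (by fun_prop)
      exact h2.clm_apply continuous_const
    have h4 : ∫ s in (0:ℝ)..1, fderiv ℝ φ (x + s • h) h = φ (x + h) - φ x := by
      rw [intervalIntegral.integral_eq_sub_of_hasDerivAt (fun s _ => hd s)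
        (hc.intervalIntegrable _ _)]
      simp
    rw [← h4, intervalIntegral.integral_of_le zero_le_one]
    refine (enorm_integral_sq_le hc.aestronglyMeasurable).trans ?_
    rw [Measure.restrict_apply_univ, Real.volume_Ioc, sub_zero, ENNReal.ofReal_one, one_mul]
    refine lintegral_mono fun s => ?_
    show ‖fderiv ℝ φ (x + s • h) h‖ₑ ^ 2 ≤ _
    rw [← mul_pow]
    refine pow_le_pow_left₀ zero_le ?_ 2
    rw [← ofReal_norm, ← ofReal_norm, ← ofReal_norm, ← ENNReal.ofReal_mul (norm_nonneg _)]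
    exact ENNReal.ofReal_le_ofReal (fderiv_norm_le φ _ h)
  calc ∫⁻ x, ‖φ (x + h) - φ x‖ₑ ^ 2
      ≤ ∫⁻ x, ∫⁻ s in Ioc (0:ℝ) 1, ‖h‖ₑ ^ 2 * ‖grad φ (x + s • h)‖ₑ ^ 2 := lintegral_mono h1
    _ = ∫⁻ s in Ioc (0:ℝ) 1, ∫⁻ x, ‖h‖ₑ ^ 2 * ‖grad φ (x + s • h)‖ₑ ^ 2 := by
        refine lintegral_lintegral_swap ?_
        have hc : Continuous fun p : Eu n × ℝ => grad φ (p.1 + p.2 • h) :=
          (grad_continuous hφ).comp (by fun_prop)
        exact ((hc.stronglyMeasurable.enorm.pow_const 2).const_mul _).aemeasurable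
    _ = ∫⁻ s in Ioc (0:ℝ) 1, ‖h‖ₑ ^ 2 * ∫⁻ x, ‖grad φ x‖ₑ ^ 2 := by
        refine lintegral_congr fun s => ?_
        have hc : Continuous fun x : Eu n => grad φ (x + s • h) :=
          (grad_continuous hφ).comp (by fun_prop)
        rw [lintegral_const_mul _ (hc.stronglyMeasurable.enorm.pow_const 2)]
        congr 1
        exact lintegral_add_right_eq_self (fun x => ‖grad φ x‖ₑ ^ 2) (s • h)
    _ = ‖h‖ₑ ^ 2 * ∫⁻ x, ‖grad φ x‖ₑ ^ 2 := by
        rw [setLIntegral_const, Real.volume_Ioc]; simp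

/-- shift in space -/
def sh (h : Eu n) (z : ST n) : ST n := (z.1, z.2 + h)

theorem sh_mp (h : Eu n) : MeasurePreserving (sh h) (volume : Measure (ST n)) volume := by
  exact (MeasurePreserving.id (volume : Measure ℝ)).prod
    (measurePreserving_add_right (volume : Measure (Eu n)) h)

theorem trans_elem {Ω : Set (Eu n)} {T : ℝ} {v : ST n → Eu n} {G : ST n → Mt n}
    (hE : IsElem Ω T v G) (h : Eu n) :
    eLpNorm (fun z => v (sh h z) - v z) 2 volume ≤ ‖h‖ₑ * eLpNorm G 2 volume := by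
  refine eLpNorm_le_of_sq ?_
  have hm : StronglyMeasurable fun z => v (sh h z) - v z :=
    ((elem_sm hE).1.comp_measurable (sh_mp h).measurable).sub (elem_sm hE).1
  rw [mul_pow, eLpNorm_two_sq, lintegral_st hm, lintegral_st (elem_sm hE).2,
    ← lintegral_const_mul]
  · refine lintegral_mono fun t => ?_
    have h1 := trans_smooth (elem_section hE t).1.smooth h
    simp only [(elem_section hE t).2] at h1
    exact h1
  · exact ((elem_sm hE).2.enorm.pow_const 2).lintegral_prod_right'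

/-- translation estimate -/
theorem trans_vel {Ω : Set (Eu n)} {T : ℝ} {v : ST n → Eu n} {G : ST n → Mt n}
    (hE : IsVel Ω T v G) (h : Eu n) :
    eLpNorm (fun z => v (sh h z) - v z) 2 volume ≤ ‖h‖ₑ * eLpNorm G 2 volume := by
  have key : ∀ ε : ℝ, 0 < ε → eLpNorm (fun z => v (sh h z) - v z) 2 volume ≤
      ENNReal.ofReal ε * (2 + ‖h‖ₑ) + ‖h‖ₑ * eLpNorm G 2 volume := by
    intro ε hε
    obtain ⟨a, A, hA, ha1, ha2⟩ := hE.approx ε hε
    have hd : MemLp (v - a) 2 volume := by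
      refine ⟨hE.memv.1.sub (elem_sm hA).1.aestronglyMeasurable, ha1.trans_lt ENNReal.ofReal_lt_top⟩
    have h1 : eLpNorm (fun z => (v - a) (sh h z)) 2 volume ≤ ENNReal.ofReal ε := by
      have := eLpNorm_comp_measurePreserving (p := 2) hd.1 (sh_mp h)
      exact (le_of_eq this).trans ha1
    have h2 := trans_elem hA h
    have h3 : eLpNorm A 2 volume ≤ eLpNorm G 2 volume + ENNReal.ofReal ε := by
      have h4 : A = G - (G - A) := by abel
      rw [h4]
      refine (eLpNorm_sub_le hE.memG.1 (hE.memG.1.sub (elem_sm hA).2.aestronglyMeasurable)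
        (by norm_num)).trans (add_le_add le_rfl ?_)
      exact ha2
    have h5 : (fun z => v (sh h z) - v z) =
        ((fun z => (v - a) (sh h z)) + fun z => a (sh h z) - a z) - (v - a) := by
      funext z
      simp only [Pi.sub_apply, Pi.add_apply]
      abel
    have m1 : AEStronglyMeasurable (fun z => (v - a) (sh h z)) volume :=
      hd.1.comp_measurePreserving (sh_mp h)
    have m2 : AEStronglyMeasurable (fun z => a (sh h z) - a z) volume :=
      (((elem_sm hA).1.comp_measurable (sh_mp h).measurable).sub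
        (elem_sm hA).1).aestronglyMeasurable
    rw [h5]
    calc eLpNorm (((fun z => (v - a) (sh h z)) + fun z => a (sh h z) - a z) - (v - a)) 2 volume
        ≤ eLpNorm ((fun z => (v - a) (sh h z)) + fun z => a (sh h z) - a z) 2 volume +
          eLpNorm (v - a) 2 volume := eLpNorm_sub_le (m1.add m2) hd.1 (by norm_num)
      _ ≤ (eLpNorm (fun z => (v - a) (sh h z)) 2 volume +
          eLpNorm (fun z => a (sh h z) - a z) 2 volume) + eLpNorm (v - a) 2 volume :=
          add_le_add (eLpNorm_add_le m1 m2 (by norm_num)) le_rfl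
      _ ≤ (ENNReal.ofReal ε + ‖h‖ₑ * (eLpNorm G 2 volume + ENNReal.ofReal ε)) +
          ENNReal.ofReal ε :=
          add_le_add (add_le_add h1 (h2.trans (mul_le_mul' le_rfl h3))) ha1
      _ = ENNReal.ofReal ε * (2 + ‖h‖ₑ) + ‖h‖ₑ * eLpNorm G 2 volume := by ring
  have h1 : Tendsto (fun k : ℕ => ENNReal.ofReal (1 / ((k : ℝ) + 1)) * (2 + ‖h‖ₑ) +
      ‖h‖ₑ * eLpNorm G 2 volume) atTop (𝓝 (0 * (2 + ‖h‖ₑ) + ‖h‖ₑ * eLpNorm G 2 volume)) := by
    refine Tendsto.add (ENNReal.Tendsto.mul_const ?_ (Or.inr ?_)) tendsto_const_nhds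
    · have := ENNReal.tendsto_ofReal tendsto_one_div_add_atTop_nhds_zero_nat
      rwa [ENNReal.ofReal_zero] at this
    · exact ENNReal.add_ne_top.2 ⟨by norm_num, enorm_ne_top⟩
  rw [zero_mul, zero_add] at h1
  exact ge_of_tendsto' h1 fun k => key _ (by positivity)

end Pool.Agent.Helper41.Jef
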