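import Pool.Agent.Helper41.Jef.BasicA

/-! # Pairings in the space variable, elementary facts on `IsVel` -/

open MeasureTheory Set Filter Topology
open scoped ENNReal NNReal ContDiff

namespace Pool.Agent.Helper41.Jef

open Pool.Agent.Helper42.Jef

variable {n : ℕ}

/-- pairing in the space variable -/
noncomputable def pr (u : ST n → Eu n) (z : Eu n → Eu n) (t : ℝ) : ℝ :=
  ∫ x, inner ℝ (u (t, x)) (z x)

theorem lintegral_slab {E : Type*} [NormedAddCommGroup E] {u : ST n → E}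
    (hu : StronglyMeasurable u) (I : Set ℝ) :
    ∫⁻ z in I ×ˢ (univ : Set (Eu n)), ‖u z‖ₑ ^ 2 = ∫⁻ t in I, ∫⁻ x, ‖u (t, x)‖ₑ ^ 2 := by
  rw [Measure.volume_eq_prod, ← Measure.prod_restrict, Measure.restrict_univ,
    lintegral_prod _ (hu.enorm.pow_const 2).aemeasurable]

theorem lintegral_st {E : Type*} [NormedAddCommGroup E] {u : ST n → E}
    (hu : StronglyMeasurable u) :
    ∫⁻ z, ‖u z‖ₑ ^ 2 = ∫⁻ t, ∫⁻ x, ‖u (t, x)‖ₑ ^ 2 := by
  rw [Measure.volume_eq_prod, lintegral_prod _ (hu.enorm.pow_const 2).aemeasurable]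

theorem inner_sq_le {α : Type*} [MeasurableSpace α] {μ : Measure α} {f g : α → Eu n}
    (hf : AEStronglyMeasurable f μ) (hg : AEStronglyMeasurable g μ) :
    ‖∫ x, inner ℝ (f x) (g x) ∂μ‖ₑ ^ 2 ≤ (∫⁻ x, ‖f x‖ₑ ^ 2 ∂μ) * ∫⁻ x, ‖g x‖ₑ ^ 2 ∂μ := by
  have h1 : ‖∫ x, inner ℝ (f x) (g x) ∂μ‖ₑ ≤ ∫⁻ x, ‖f x‖ₑ * ‖g x‖ₑ ∂μ := by
    refine (enorm_integral_le_lintegral_enorm _).trans (lintegral_mono fun x => ?_)
    rw [← ofReal_norm, ← ofReal_norm, ← ofReal_norm, ← ENNReal.ofReal_mul (norm_nonneg _)]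
    exact ENNReal.ofReal_le_ofReal (norm_inner_le_norm _ _)
  exact (pow_le_pow_left₀ zero_le h1 2).trans (lintegral_mul_sq_le hf.enorm hg.enorm)

theorem sm_section {u : ST n → Eu n} (hu : StronglyMeasurable u) (t : ℝ) :
    StronglyMeasurable fun x => u (t, x) := hu.comp_measurable measurable_prodMk_left

theorem pr_sq_le {u : ST n → Eu n} (hu : StronglyMeasurable u) {z : Eu n → Eu n}
    (hz : AEStronglyMeasurable z volume) (t : ℝ) :
    ‖pr u z t‖ₑ ^ 2 ≤ (∫⁻ x, ‖u (t, x)‖ₑ ^ 2) * ∫⁻ x, ‖z x‖ₑ ^ 2 :=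
  inner_sq_le (sm_section hu t).aestronglyMeasurable hz

theorem pr_aesm {u : ST n → Eu n} (hu : StronglyMeasurable u) {z : Eu n → Eu n}
    (hz : AEStronglyMeasurable z volume) : AEStronglyMeasurable (pr u z) volume := by
  have h1 : AEStronglyMeasurable (fun p : ℝ × Eu n => inner ℝ (u p) (z p.2))
      ((volume : Measure ℝ).prod (volume : Measure (Eu n))) :=
    hu.aestronglyMeasurable.inner hz.comp_snd
  exact h1.integral_prod_right'

theorem pr_slab_le {u : ST n → Eu n} (hu : StronglyMeasurable u) {z : Eu n → Eu n}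
    (hz : AEStronglyMeasurable z volume) (I : Set ℝ) :
    ∫⁻ t in I, ‖pr u z t‖ₑ ^ 2 ≤
      (∫⁻ z in I ×ˢ (univ : Set (Eu n)), ‖u z‖ₑ ^ 2) * ∫⁻ x, ‖z x‖ₑ ^ 2 := by
  rw [lintegral_slab hu, ← lintegral_mul_const]
  · exact lintegral_mono fun t => pr_sq_le hu hz t
  · exact (hu.enorm.pow_const 2).lintegral_prod_right'

theorem pr_le {u : ST n → Eu n} (hu : StronglyMeasurable u) {z : Eu n → Eu n}
    (hz : AEStronglyMeasurable z volume) :
    eLpNorm (pr u z) 2 volume ≤ eLpNorm u 2 volume * eLpNorm z 2 volume := by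
  refine eLpNorm_le_of_sq ?_
  have := pr_slab_le hu hz univ
  rw [univ_prod_univ, Measure.restrict_univ, Measure.restrict_univ] at this
  rw [mul_pow, eLpNorm_two_sq, eLpNorm_two_sq]
  exact this

theorem pr_memLp {u : ST n → Eu n} (hu : StronglyMeasurable u) (hu2 : MemLp u 2 volume)
    {z : Eu n → Eu n} (hz : MemLp z 2 volume) : MemLp (pr u z) 2 volume :=
  ⟨pr_aesm hu hz.1, (pr_le hu hz.1).trans_lt (ENNReal.mul_lt_top hu2.2 hz.2)⟩

/-- almost all sections are square integrable -/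
theorem ae_section {u : ST n → Eu n} (hu : StronglyMeasurable u) (hu2 : MemLp u 2 volume) :
    ∀ᵐ t : ℝ, MemLp (fun x => u (t, x)) 2 volume := by
  have h1 : ∫⁻ t, ∫⁻ x, ‖u (t, x)‖ₑ ^ 2 ≠ ⊤ := by
    rw [← lintegral_st hu, ← eLpNorm_two_sq]
    exact ENNReal.pow_ne_top hu2.2.ne
  have h2 : Measurable fun t => ∫⁻ x, ‖u (t, x)‖ₑ ^ 2 :=
    (hu.enorm.pow_const 2).lintegral_prod_right'
  filter_upwards [ae_lt_top h2 h1] with t ht
  refine ⟨(sm_section hu t).aestronglyMeasurable, ?_⟩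
  rw [← eLpNorm_two_sq] at ht
  by_contra h
  rw [not_lt, top_le_iff] at h
  rw [h] at ht
  simp at ht

theorem inner_integrable {α : Type*} [MeasurableSpace α] {μ : Measure α} {f g : α → Eu n}
    (hf : MemLp f 2 μ) (hg : MemLp g 2 μ) : Integrable (fun x => inner ℝ (f x) (g x)) μ := by
  have := L2.integrable_inner (𝕜 := ℝ) (hf.toLp f) (hg.toLp g)
  refine this.congr ?_
  filter_upwards [hf.coeFn_toLp, hg.coeFn_toLp] with x h1 h2
  rw [h1, h2]

theorem pr_sub_left {u v : ST n → Eu n} {z : Eu n → Eu n} (hz : MemLp z 2 volume) {t : ℝ}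
    (hu : MemLp (fun x => u (t, x)) 2 volume) (hv : MemLp (fun x => v (t, x)) 2 volume) :
    pr (fun p => u p - v p) z t = pr u z t - pr v z t := by
  show ∫ x, inner ℝ (u (t, x) - v (t, x)) (z x) = _
  simp only [inner_sub_left]
  exact integral_sub (inner_integrable hu hz) (inner_integrable hv hz)

theorem pr_add_right {u : ST n → Eu n} {z z' : Eu n → Eu n} (hz : MemLp z 2 volume)
    (hz' : MemLp z' 2 volume) {t : ℝ} (hu : MemLp (fun x => u (t, x)) 2 volume) :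
    pr u (fun x => z x + z' x) t = pr u z t + pr u z' t := by
  show ∫ x, inner ℝ (u (t, x)) (z x + z' x) = _
  simp only [inner_add_right]
  exact integral_add (inner_integrable hu hz) (inner_integrable hu hz')

theorem pr_smul_right (u : ST n → Eu n) (z : Eu n → Eu n) (c : ℝ) (t : ℝ) :
    pr u (fun x => c • z x) t = c * pr u z t := by
  show ∫ x, inner ℝ (u (t, x)) (c • z x) = _
  simp only [inner_smul_right]
  exact integral_const_mul _ _

theorem pr_congr_right (u : ST n → Eu n) {z z' : Eu n → Eu n} (h : z =ᵐ[volume] z') (t : ℝ) :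
    pr u z t = pr u z' t := by
  refine integral_congr_ae ?_
  filter_upwards [h] with x hx
  rw [hx]

theorem memLp_tensor {ψ : ℝ → ℝ} {φ : Eu n → Eu n} (hψ : MemLp ψ 2 volume)
    (hφ : MemLp φ 2 volume) : MemLp (fun z : ST n => ψ z.1 • φ z.2) 2 volume := by
  refine ⟨?_, ?_⟩
  · have h1 : AEStronglyMeasurable (fun z : ℝ × Eu n => ψ z.1 • φ z.2)
      ((volume : Measure ℝ).prod (volume : Measure (Eu n))) :=
      hψ.1.comp_fst.smul hφ.1.comp_snd
    exact h1
  · have h1 : eLpNorm (fun z : ST n => ψ z.1 • φ z.2) 2 volume ^ 2 =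
        eLpNorm ψ 2 volume ^ 2 * eLpNorm φ 2 volume ^ 2 := by
      rw [eLpNorm_two_sq, eLpNorm_two_sq, eLpNorm_two_sq]
      have h2 : ∀ z : ST n, ‖ψ z.1 • φ z.2‖ₑ ^ 2 = ‖ψ z.1‖ₑ ^ 2 * ‖φ z.2‖ₑ ^ 2 := by
        intro z; rw [enorm_smul, mul_pow]
      simp only [h2]
      rw [Measure.volume_eq_prod]
      exact lintegral_prod_mul (hψ.1.enorm.pow_const 2) (hφ.1.enorm.pow_const 2)
    have h2 : eLpNorm (fun z : ST n => ψ z.1 • φ z.2) 2 volume ^ 2 < ⊤ := by
      rw [h1]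
      exact ENNReal.mul_lt_top (ENNReal.pow_lt_top hψ.2) (ENNReal.pow_lt_top hφ.2)
    by_contra h
    rw [not_lt, top_le_iff] at h
    rw [h] at h2
    simp at h2

/-- Fubini for the pairing -/
theorem pr_fubini {u : ST n → Eu n} (hu2 : MemLp u 2 volume) {ψ : ℝ → ℝ} {φ : Eu n → Eu n}
    (hψ : MemLp ψ 2 volume) (hφ : MemLp φ 2 volume) :
    ∫ z : ST n, ψ z.1 * inner ℝ (u z) (φ z.2) = ∫ t, ψ t * pr u φ t := by
  have h1 : Integrable (fun z : ST n => inner ℝ (u z) (ψ z.1 • φ z.2)) volume :=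
    inner_integrable hu2 (memLp_tensor hψ hφ)
  have h2 : (fun z : ST n => inner ℝ (u z) (ψ z.1 • φ z.2)) =
      fun z : ST n => ψ z.1 * inner ℝ (u z) (φ z.2) := by
    funext z; rw [inner_smul_right]
  rw [h2, Measure.volume_eq_prod] at h1
  rw [Measure.volume_eq_prod, integral_prod _ h1]
  refine integral_congr_ae (Eventually.of_forall fun t => ?_)
  show ∫ x, ψ t * inner ℝ (u (t, x)) (φ x) = _
  rw [integral_const_mul]
  rfl

end Pool.Agent.Helper41.Jef
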